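import Mathlib
import Pool.Agent.TeamU.TowerFinal
import Pool.Agent.H718R3.Tower1

/-! Good extensions which are moreover of residue degree one above a finite set `T` of odd primes,
and the Kummer step for them. -/

set_option autoImplicit false

open NumberField IsDedekindDomain Module

namespace Pool.Agent.K1H82.Sha

open Pool.Agent.TeamU

/-- Every prime of `M` above a `p ∈ T` has a residue field with `p` elements. -/
def TSplit (T : Finset ℕ) (M : Type*) [Field M] [NumberField M] : Prop :=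
  ∀ v : HeightOneSpectrum (𝓞 M), ∀ p ∈ T, (p : 𝓞 M) ∈ v.asIdeal →
    Nat.card (𝓞 M ⧸ v.asIdeal) = p

/-- good extensions of residue degree one above `T` -/
structure GoodT (T : Finset ℕ) (k L : Type) [Field k] [NumberField k] [Field L] [NumberField L]
    [Algebra k L] : Prop where
  good : Good k L
  ts : TSplit T L

/-- `Even1` and a local square above `T` -/
structure Even1T (T : Finset ℕ) (L : Type) [Field L] [NumberField L] (g : L) : Prop where
  ev : Even1 L g
  locT : ∀ P : HeightOneSpectrum (𝓞 L), ∀ p ∈ T, (p : 𝓞 L) ∈ P.asIdeal → LocSq P g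

/-- a finite set of odd primes -/
def OddPrimes (T : Finset ℕ) : Prop := ∀ p ∈ T, p.Prime ∧ p ≠ 2

theorem natCast_mem_of_over {M E : Type} [Field M] [NumberField M] [Field E] [NumberField E]
    [Algebra M E] {P : HeightOneSpectrum (𝓞 E)} {v : HeightOneSpectrum (𝓞 M)} (h : Over P v)
    (n : ℕ) : (n : 𝓞 E) ∈ P.asIdeal ↔ (n : 𝓞 M) ∈ v.asIdeal := by
  rw [← h, Ideal.mem_comap, map_natCast]

theorem two_notMem {M : Type} [Field M] [NumberField M] (v : HeightOneSpectrum (𝓞 M)) {p : ℕ}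
    (hp : p.Prime) (hp2 : p ≠ 2) (hv : (p : 𝓞 M) ∈ v.asIdeal) : (2 : 𝓞 M) ∉ v.asIdeal := by
  intro h2
  apply v.isPrime.ne_top
  rw [Ideal.eq_top_iff_one]
  have hodd : Odd p := hp.odd_of_ne_two hp2
  obtain ⟨m, hm⟩ := hodd
  have h3 : (1 : 𝓞 M) = (p : 𝓞 M) - 2 * (m : 𝓞 M) := by
    rw [hm]; push_cast; ring
  rw [h3]
  exact v.asIdeal.sub_mem hv (v.asIdeal.mul_mem_right _ h2)

/-- residue degree one descends -/
theorem tSplit_desc (T : Finset ℕ) (hT : OddPrimes T) (M L : Type) [Field M] [NumberField M]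
    [Field L] [NumberField L] [Algebra M L] (h : TSplit T L) : TSplit T M := by
  intro v p hp hv
  obtain ⟨P, hP⟩ := TeamU.exists_over M L v
  have hpP : (p : 𝓞 L) ∈ P.asIdeal := (natCast_mem_of_over hP p).mpr hv
  have hc := h P p hp hpP
  have hpp := (hT p hp).1
  have : Finite (𝓞 L ⧸ P.asIdeal) := Nat.finite_of_card_ne_zero (by rw [hc]; exact hpp.ne_zero)
  have : Finite (𝓞 M ⧸ v.asIdeal) := Ring.HasFiniteQuotients.finiteQuotient v.ne_bot
  let f : 𝓞 M ⧸ v.asIdeal →+* 𝓞 L ⧸ P.asIdeal :=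
    Ideal.quotientMap P.asIdeal (algebraMap (𝓞 M) (𝓞 L)) (le_of_eq hP.symm)
  have hinj : Function.Injective f := by
    apply Ideal.quotientMap_injective'
    exact le_of_eq hP
  have h1 : Nat.card (𝓞 M ⧸ v.asIdeal) ∣ Nat.card (𝓞 L ⧸ P.asIdeal) :=
    AddSubgroup.card_dvd_of_injective f.toAddMonoidHom hinj
  rw [hc, Nat.dvd_prime hpp] at h1
  rcases h1 with h1 | h1
  · exfalso
    have hv1 : v.asIdeal ≠ ⊤ := v.isPrime.ne_top
    have : Nontrivial (𝓞 M ⧸ v.asIdeal) := Ideal.Quotient.nontrivial_iff.mpr hv1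
    have h2 : 1 < Nat.card (𝓞 M ⧸ v.asIdeal) := Finite.one_lt_card
    omega
  · exact h1

/-- the Kummer step -/
theorem kummer_stepT (T : Finset ℕ) (hT : OddPrimes T) (k L : Type) [Field k] [NumberField k]
    [Field L] [NumberField L] [Algebra k L] (h : GoodT T k L) (g : L) (hg : ¬ IsSquare g)
    (he : Even1T T L g) (hi : InvSq k g) :
    ∃ (L' : Type) (_ : Field L') (_ : NumberField L') (_ : Algebra k L') (_ : Algebra L L'),
      IsScalarTower k L L' ∧ GoodT T k L' ∧ finrank L L' = 2 ∧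
        ∃ z : L', z ^ 2 = algebraMap L L' g := by
  obtain ⟨L', i1, i2, i3, i4, hst, hgood, h2, z, hz⟩ := kummer_step k L h.good g hg he.ev hi
  refine ⟨L', i1, i2, i3, i4, hst, ⟨hgood, ?_⟩, h2, z, hz⟩
  intro P p hp hP
  obtain ⟨v, hv⟩ := TeamU.exists_under L L' P
  have hvp : (p : 𝓞 L) ∈ v.asIdeal := (natCast_mem_of_over hv p).mp hP
  have h2v := two_notMem v (hT p hp).1 (hT p hp).2 hvp
  have hzn : z ∉ (algebraMap L L').range := by
    rintro ⟨t, rfl⟩
    apply hg
    refine ⟨t, ?_⟩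
    apply (algebraMap L L').injective
    rw [← hz, ← map_pow, sq]
  have hs : Splits L' v := splits_of_locSq h2 v (fun h => h2v (Ideal.pow_le_self two_ne_zero h)) g
    he.ev.ne z hz hzn (he.locT v p hp hvp)
  rw [(unr_of_splits h2 v hs P hv).2]
  exact h.ts v p hp hvp

theorem even1T_sq {T : Finset ℕ} {L : Type} [Field L] [NumberField L] (y : L) (hy : y ≠ 0) :
    Even1T T L (y ^ 2) where
  ev := even1_sq y hy
  locT := fun _ _ _ _ => ⟨y, 1, by ring, hy, Or.inr (by simp)⟩

/-- transfer of `Even1T` to a larger good field -/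
theorem even1T_transfer (T : Finset ℕ) (k L L1 : Type) [Field k] [NumberField k] [Field L]
    [NumberField L] [Field L1] [NumberField L1] [Algebra k L] [Algebra k L1] [Algebra L L1]
    [IsScalarTower k L L1] (h1 : ∀ P : HeightOneSpectrum (𝓞 L1), Unr k P) (g : L)
    (he : Even1T T L g) : Even1T T L1 (algebraMap L L1 g) := by
  have hu := unr_desc_top k L L1 h1
  refine ⟨Pool.Agent.H718R3.NT.even1_transfer k L L1 h1 g he.ev, ?_⟩
  intro P p hp hP
  obtain ⟨v, hv⟩ := TeamU.exists_under L L1 P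
  have hv2 : (p : 𝓞 L) ∈ v.asIdeal := (natCast_mem_of_over hv p).mp hP
  obtain ⟨y, u, h1, h2, h3⟩ := he.locT v p hp hv2
  refine ⟨algebraMap L L1 y, algebraMap L L1 u, ?_, ?_, ?_⟩
  · rw [h1, map_mul, map_pow]
  · simpa using h2
  · have e1 : (2 : 𝓞 L1) ∈ P.asIdeal ↔ (2 : 𝓞 L) ∈ v.asIdeal := by
      have := natCast_mem_of_over hv 2
      simpa using this
    have e2 : P.valuation L1 (algebraMap L L1 u - 1) = v.valuation L (u - 1) := by
      rw [← map_one (algebraMap L L1), ← map_sub, hu P v hv]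
    rw [e1, e2]
    exact h3

end Pool.Agent.K1H82.Sha
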