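import Mathlib
import Pool.Agent.K1H82.Sha.Defs

/-! The obstruction bound with local conditions above a finite set `T` of odd primes. -/

set_option autoImplicit false
set_option linter.all false

open NumberField IsDedekindDomain Module

namespace Pool.Agent.K1H82.Sha

open Pool.Agent.TeamU Pool.Agent.TeamU.D1

/-- the number of primes above `p` is at most the degree -/
theorem card_above (k : Type) [Field k] [NumberField k] (p : ℕ) (hp : p.Prime) :
    {w : HeightOneSpectrum (𝓞 k) | (p : 𝓞 k) ∈ w.asIdeal}.Finite ∧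
      {w : HeightOneSpectrum (𝓞 k) | (p : 𝓞 k) ∈ w.asIdeal}.ncard ≤ finrank ℚ k := by
  classical
  have hpZ : Prime (p : ℤ) := Nat.prime_iff_prime_int.mp hp
  have hne : Ideal.span {(p : ℤ)} ≠ ⊥ := by
    rw [Ne, Ideal.span_singleton_eq_bot]
    exact hpZ.ne_zero
  have hpr : (Ideal.span {(p : ℤ)}).IsPrime := (Ideal.span_singleton_prime hpZ.ne_zero).mpr hpZ
  have hmax : (Ideal.span {(p : ℤ)}).IsMaximal := hpr.isMaximal hne
  let F := IsDedekindDomain.primesOverFinset (Ideal.span {(p : ℤ)}) (𝓞 k)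
  have hF : F.card ≤ finrank ℚ k :=
    Ideal.card_primesOverFinset_le_finrank (𝓞 k) ℚ k hne
  have hmaps : ∀ w ∈ {w : HeightOneSpectrum (𝓞 k) | (p : 𝓞 k) ∈ w.asIdeal},
      w.asIdeal ∈ (F : Set (Ideal (𝓞 k))) := by
    intro w hw
    have hw' : (p : 𝓞 k) ∈ w.asIdeal := hw
    rw [Finset.mem_coe]
    refine (IsDedekindDomain.mem_primesOverFinset_iff hne _).mpr ⟨w.isPrime, ⟨?_⟩⟩
    apply hmax.eq_of_le
    · intro h
      apply w.isPrime.ne_top
      rw [Ideal.eq_top_iff_one] at h ⊢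
      have h1 : algebraMap ℤ (𝓞 k) 1 ∈ w.asIdeal := h
      rwa [map_one] at h1
    · rw [Ideal.span_singleton_le_iff_mem]
      change algebraMap ℤ (𝓞 k) (p : ℤ) ∈ w.asIdeal
      rw [map_natCast]
      exact hw'
  have hinj : Set.InjOn (fun w : HeightOneSpectrum (𝓞 k) => w.asIdeal)
      {w : HeightOneSpectrum (𝓞 k) | (p : 𝓞 k) ∈ w.asIdeal} := by
    intro a _ b _ h
    exact HeightOneSpectrum.ext h
  constructor
  · exact Set.Finite.of_injOn hmaps hinj (Finset.finite_toSet F)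
  · refine (Set.ncard_le_ncard_of_injOn _ hmaps hinj (Finset.finite_toSet F)).trans ?_
    rw [Set.ncard_coe_finset]
    exact hF

/-- the primes above `T` -/
def above (T : Finset ℕ) (k : Type) [Field k] [NumberField k] : Set (HeightOneSpectrum (𝓞 k)) :=
  {w | ∃ p ∈ T, (p : 𝓞 k) ∈ w.asIdeal}

theorem card_aboveT (T : Finset ℕ) (hT : ∀ p ∈ T, p.Prime) (k : Type) [Field k] [NumberField k] :
    (above T k).Finite ∧ (above T k).ncard ≤ T.card * finrank ℚ k := by
  classical
  induction T using Finset.induction_on with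
  | empty =>
    have : above ∅ k = ∅ := by
      ext w; simp [above]
    rw [this]
    simp
  | insert p T hp ih =>
    have h1 := card_above k p (hT p (Finset.mem_insert_self _ _))
    have h2 := ih (fun q hq => hT q (Finset.mem_insert_of_mem hq))
    have h3 : above (insert p T) k =
        {w : HeightOneSpectrum (𝓞 k) | (p : 𝓞 k) ∈ w.asIdeal} ∪ above T k := by
      ext w
      simp [above]
    rw [h3]
    refine ⟨h1.1.union h2.1, (Set.ncard_union_le _ _).trans ?_⟩
    rw [Finset.card_insert_of_notMem hp]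
    have := h1.2
    have := h2.2
    nlinarith

/-- local part of the obstruction bound -/
theorem relIndex_XEvenT (T : Finset ℕ) (hT : OddPrimes T) (k L : Type) [Field k] [NumberField k]
    [Field L] [NumberField L] [Algebra k L] (h : Good k L) (hk : finrank ℚ k = 2)
    (Y : Subgroup Lˣ)
    (hYe : ∀ g : Lˣ, g ∈ X k L → Even1T T L (g : L) → g ∈ Y) :
    Y.relIndex (XEven k L) ≠ 0 ∧ Y.relIndex (XEven k L) ≤ 2 ^ (6 + 4 * T.card) := by
  classical
  have hgal := h.galois
  -- the part away from `T`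
  let S0 : Subgroup Lˣ := ⨅ v : above T k, Sq (Classical.choose (TeamU.exists_over k L v.1))
  obtain ⟨hfinT, hcardT⟩ := card_aboveT T (fun p hp => (hT p hp).1) k
  have : Finite (above T k) := hfinT
  have hodd : ∀ v : above T k,
      (2 : 𝓞 L) ∉ (Classical.choose (TeamU.exists_over k L v.1)).asIdeal := by
    rintro ⟨v, p, hp, hv⟩
    have hP := Classical.choose_spec (TeamU.exists_over k L v)
    exact two_notMem _ (hT p hp).1 (hT p hp).2 ((natCast_mem_of_over hP p).mpr hv)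
  have hS1 : ∀ v : above T k,
      (Sq (Classical.choose (TeamU.exists_over k L v.1))).relIndex (XEven k L) ≠ 0 ∧
      (Sq (Classical.choose (TeamU.exists_over k L v.1))).relIndex (XEven k L) ≤ 4 := by
    intro v
    have h1 := sq_index_odd _ (hodd v)
    have h2 : (Sq (Classical.choose (TeamU.exists_over k L v.1))).relIndex ⊤ ≠ 0 := by
      rw [Subgroup.relIndex_top_right]; exact h1.1
    constructor
    · exact fun h0 => h2 (Subgroup.relIndex_eq_zero_of_le_right le_top h0)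
    · refine (Subgroup.relIndex_le_of_le_right le_top h2).trans ?_
      rw [Subgroup.relIndex_top_right]
      exact h1.2
  obtain ⟨a1, a2⟩ := relIndex_iInf_le_pow
    (fun v : above T k => Sq (Classical.choose (TeamU.exists_over k L v.1))) (XEven k L) 4 hS1
  have a3 : (4 : ℕ) ^ Nat.card (above T k) ≤ 2 ^ (4 * T.card) := by
    rw [Nat.card_coe_set_eq, show (4 : ℕ) = 2 ^ 2 by norm_num, ← pow_mul]
    apply Nat.pow_le_pow_right (by norm_num)
    rw [hk] at hcardT
    omega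
  -- the subgroup satisfying the other conditions
  let Y0 : Subgroup Lˣ :=
    { carrier := {x | x ∈ X k L ∧ Even1 L (x : L)}
      mul_mem' := by
        rintro a b ⟨ha, ha'⟩ ⟨hb, hb'⟩
        refine ⟨mul_mem ha hb, ⟨by simp, ?_, ?_, ?_⟩⟩
        · intro P
          obtain ⟨y, hy⟩ := ha'.even P
          obtain ⟨z, hz⟩ := hb'.even P
          exact ⟨y * z, by push_cast; rw [map_mul, map_mul, hy, hz, mul_pow]⟩
        · intro P hP
          push_cast
          exact B7.locSq_mul P (ha'.loc P hP) (hb'.loc P hP)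
        · intro φ
          push_cast
          rw [map_mul]
          exact mul_pos (ha'.pos φ) (hb'.pos φ)
      one_mem' := by
        refine ⟨one_mem _, ?_⟩
        have := even1_sq (1 : L) one_ne_zero
        simpa using this
      inv_mem' := by
        rintro a ⟨ha, ha'⟩
        refine ⟨inv_mem ha, ⟨by simp, ?_, ?_, ?_⟩⟩
        · intro P
          obtain ⟨y, hy⟩ := ha'.even P
          exact ⟨y⁻¹, by push_cast; rw [map_inv₀, map_inv₀, hy, inv_pow]⟩
        · intro P hP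
          push_cast
          exact B7.locSq_inv P (ha'.loc P hP)
        · intro φ
          push_cast
          rw [map_inv₀]
          exact inv_pos.mpr (ha'.pos φ) }
  obtain ⟨b1, b2⟩ := D1.relIndex_XEven k L h hk Y0
    (fun {x} hx {v} {P} {Q} hP hQ hs => sq_of_over k L hx hP hQ hs)
    (fun {x} hx φ ψ hr hφ => pos_of_restrict k L hx φ ψ hr hφ) (fun g hg he => ⟨hg, he⟩)
  have c1 : (S0 ⊓ Y0).relIndex (XEven k L) ≠ 0 := Subgroup.relIndex_inf_ne_zero a1 b1
  have c2 : (S0 ⊓ Y0).relIndex (XEven k L) ≤ 2 ^ (6 + 4 * T.card) := by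
    refine Subgroup.relIndex_inf_le.trans ?_
    rw [pow_add, mul_comm]
    exact Nat.mul_le_mul b2 (a2.trans a3)
  have hle : (S0 ⊓ Y0) ⊓ XEven k L ≤ Y := by
    intro x hx
    obtain ⟨⟨hx1, hx2, hx2'⟩, hx3⟩ := hx
    refine hYe x hx2 ⟨hx2', ?_⟩
    intro P p hp hP
    obtain ⟨v, hv⟩ := TeamU.exists_under k L P
    have hvT : v ∈ above T k := ⟨p, hp, (natCast_mem_of_over hv p).mp hP⟩
    have h1 := (Subgroup.mem_iInf.mp hx1) ⟨v, hvT⟩
    exact mem_Sq.mp (sq_of_over k L hx2 (Classical.choose_spec (TeamU.exists_over k L v)) hv h1)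
  have hd1 : ((S0 ⊓ Y0) ⊓ XEven k L).relIndex (XEven k L) ≠ 0 := by
    rw [Subgroup.inf_relIndex_right]; exact c1
  constructor
  · exact fun h0 => hd1 (Subgroup.relIndex_eq_zero_of_le_left hle h0)
  · refine (Subgroup.relIndex_le_of_le_left hle hd1).trans ?_
    rw [Subgroup.inf_relIndex_right]
    exact c2

/-- the obstruction bound -/
theorem obstructionT (T : Finset ℕ) (hT : OddPrimes T) (k L : Type) [Field k] [NumberField k]
    [Field L] [NumberField L] [Algebra k L] (h : Good k L) (hk : finrank ℚ k = 2)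
    (Y : Subgroup Lˣ) (hY : Y ≤ X k L) (hYk : kStar k L ≤ Y)
    (hYe : ∀ g : Lˣ, g ∈ X k L → Even1T T L (g : L) → g ∈ Y) :
    Y.relIndex (X k L) ≠ 0 ∧ Y.relIndex (X k L) ≤
      (powMonoidHom 2 : ClassGroup (𝓞 k) →* _).range.index * 2 ^ (6 + 4 * T.card) := by
  have hcl := classPart k L h
  have hloc := relIndex_XEvenT T hT k L h hk Y hYe
  have hXe : XEven k L ≤ X k L := inf_le_left
  have hZX : Y ⊔ XEven k L ≤ X k L := sup_le hY hXe
  have h1 : Y.relIndex (Y ⊔ XEven k L) * (Y ⊔ XEven k L).relIndex (X k L) = Y.relIndex (X k L) :=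
    Subgroup.relIndex_mul_relIndex _ _ _ le_sup_left hZX
  have h2 : Y.relIndex (Y ⊔ XEven k L) = Y.relIndex (XEven k L) := Subgroup.relIndex_sup_left ..
  have h3 : kStar k L ⊔ XEven k L ≤ Y ⊔ XEven k L := sup_le_sup_right hYk _
  have h4 : (Y ⊔ XEven k L).relIndex (X k L) ≠ 0 :=
    fun h0 => hcl.1 (Subgroup.relIndex_eq_zero_of_le_left h3 h0)
  have h5 := (Subgroup.relIndex_le_of_le_left h3 hcl.1).trans hcl.2
  rw [← h1, h2]
  refine ⟨mul_ne_zero hloc.1 h4, ?_⟩
  rw [mul_comm]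
  exact Nat.mul_le_mul h5 hloc.2

/-- bound for the second cohomology in terms of the first obstruction -/
theorem z2_bound_gen (k L : Type) [Field k] [NumberField k] [Field L] [NumberField L]
    [Algebra k L] (E : L → Prop)
    (hC : ∀ c : Z2 (L ≃ₐ[k] L), ∃ b : (L ≃ₐ[k] L) → Lˣ, ∀ g h : (L ≃ₐ[k] L),
      ((-1 : L) ^ (c.1 g h).val) = (b g : L) * g (b h : L) / (b (g * h) : L))
    (X : Subgroup Lˣ) (hX : ∀ x : Lˣ, x ∈ X ↔ InvSq k (x : L)) (N : ℕ)
    (hD1 : ∀ Y : Subgroup Lˣ, Y ≤ X → (Units.map (algebraMap k L : k →* L)).range ≤ Y →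
      (∀ g : Lˣ, g ∈ X → E (g : L) → g ∈ Y) → Y.relIndex X ≠ 0 ∧ Y.relIndex X ≤ 2 ^ N)
    (hmax : ∀ g : L, E g → InvSq k g → IsSquare g) :
    finrank (ZMod 2) (Z2 (L ≃ₐ[k] L)) ≤ finrank (ZMod 2) (B2 (L ≃ₐ[k] L)) + N := by
  classical
  choose b hb using hC
  choose x hx using fun c => exists_x c (b c) (hb c)
  set Y : Subgroup Lˣ := (Units.map (algebraMap k L : k →* L)).range ⊔
    (powMonoidHom 2 : Lˣ →* Lˣ).range with hY
  have hYX : Y ≤ X := by
    rw [hY]
    refine sup_le ?_ ?_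
    · rintro _ ⟨y, rfl⟩
      rw [hX]
      exact invSq_algebraMap (y : k)
    · rintro _ ⟨y, rfl⟩
      rw [hX]
      exact invSq_sq (y : L) (Units.ne_zero y)
  obtain ⟨hne, hle⟩ := hD1 Y hYX le_sup_left (by
    intro g hg he
    obtain ⟨r, hr⟩ := hmax g he ((hX g).mp hg)
    refine (le_sup_right : _ ≤ Y) ?_
    have hr0 : r ≠ 0 := by
      rintro rfl
      simp at hr
    refine ⟨Units.mk0 r hr0, ?_⟩
    ext
    simp [hr, sq])
  have hxX : ∀ c, x c ∈ X := by
    intro c
    rw [hX]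
    exact fun g => ⟨(b c g : L), hx c g⟩
  set W := (B2 (L ≃ₐ[k] L)).submoduleOf (Z2 (L ≃ₐ[k] L)) with hW
  let F : (Z2 (L ≃ₐ[k] L) ⧸ W) → (X ⧸ Y.subgroupOf X) :=
    fun q => QuotientGroup.mk ⟨x q.out, hxX q.out⟩
  have hF : Function.Injective F := by
    intro q q' hqq
    have h1 := QuotientGroup.eq.mp hqq
    rw [Subgroup.mem_subgroupOf, hY, Subgroup.mem_sup] at h1
    obtain ⟨y, ⟨y0, rfl⟩, w, ⟨w0, rfl⟩, hyw⟩ := h1
    have h2 : (x q'.out : L) = x q.out * (algebraMap k L (y0 : k) * (w0 : L) ^ 2) := by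
      have h3 : x q'.out = x q.out * (Units.map (algebraMap k L : k →* L) y0 *
          (powMonoidHom 2 : Lˣ →* Lˣ) w0) := by
        rw [hyw]
        simp
      have h4 := congrArg Units.val h3
      simpa using h4
    have h5 := sub_mem_B2 (q.out).1 (q'.out).1 (b q.out) (b q'.out) (hb q.out) (hb q'.out)
      (x q.out) (x q'.out) (hx q.out) (hx q'.out) (y0 : k) (w0 : L) (Units.ne_zero w0) h2
    have h6 : q'.out - q.out ∈ W := h5
    rw [← Submodule.Quotient.eq] at h6
    have e1 : Submodule.Quotient.mk (p := W) q.out = q := Quotient.out_eq q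
    have e2 : Submodule.Quotient.mk (p := W) q'.out = q' := Quotient.out_eq q'
    rw [e1, e2] at h6
    exact h6.symm
  have hfin : Finite (X ⧸ Y.subgroupOf X) := by
    apply Nat.finite_of_card_ne_zero
    exact hne
  have hcard : Nat.card (Z2 (L ≃ₐ[k] L) ⧸ W) ≤ Nat.card (X ⧸ Y.subgroupOf X) :=
    Nat.card_le_card_of_injective F hF
  have hcard2 : Nat.card (Z2 (L ≃ₐ[k] L) ⧸ W) ≤ 2 ^ N := hcard.trans hle
  have hfinG : Finite (L ≃ₐ[k] L) := inferInstance
  have hfd : Module.Finite (ZMod 2) ((L ≃ₐ[k] L) → (L ≃ₐ[k] L) → ZMod 2) := inferInstance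
  have hfinZ : Module.Finite (ZMod 2) (Z2 (L ≃ₐ[k] L)) := inferInstance
  have h7 : Nat.card (Z2 (L ≃ₐ[k] L) ⧸ W) = 2 ^ finrank (ZMod 2) (Z2 (L ≃ₐ[k] L) ⧸ W) := by
    rw [Module.natCard_eq_pow_finrank (K := ZMod 2)]
    simp
  rw [h7] at hcard2
  have h8 : finrank (ZMod 2) (Z2 (L ≃ₐ[k] L) ⧸ W) ≤ N :=
    (Nat.pow_le_pow_iff_right (by norm_num)).mp hcard2
  have h9 := Submodule.finrank_quotient_add_finrank W
  have h10 : finrank (ZMod 2) W = finrank (ZMod 2) (B2 (L ≃ₐ[k] L)) :=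
    (Submodule.submoduleOfEquivOfLe (B2_le_Z2 (L ≃ₐ[k] L))).finrank_eq
  omega

/-- the Golod-Shafarevich step -/
theorem exists_g (T : Finset ℕ) (hT : OddPrimes T) (k L : Type) [Field k] [NumberField k]
    [Field L] [NumberField L] [Algebra k L] (h : Good k L) (hk : finrank ℚ k = 2) (s d : ℕ)
    (hs : (powMonoidHom 2 : ClassGroup (𝓞 k) →* _).range.index ≤ 2 ^ s)
    (hd : d ≤ finrank (ZMod 2) (Z1 (L ≃ₐ[k] L))) (hd2 : 2 ≤ d)
    (hds : 4 * (s + (6 + 4 * T.card)) ≤ d ^ 2) :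
    ∃ g : L, Even1T T L g ∧ InvSq k g ∧ ¬ IsSquare g := by
  by_contra hcon
  push Not at hcon
  have h1 := z2_bound_gen k L (Even1T T L) (cocycle_splits k L h) (X k L) (fun x => Iff.rfl)
    (s + (6 + 4 * T.card)) (fun Y hYX hYk hYe => by
      obtain ⟨h1, h2⟩ := obstructionT T hT k L h hk Y hYX hYk hYe
      refine ⟨h1, h2.trans ?_⟩
      rw [pow_add 2 s]
      exact Nat.mul_le_mul_right _ hs) hcon
  have h3 := gs (L ≃ₐ[k] L) (by omega)
  have h4 : d ^ 2 ≤ (finrank (ZMod 2) (Z1 (L ≃ₐ[k] L))) ^ 2 := Nat.pow_le_pow_left hd 2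
  omega

end Pool.Agent.K1H82.Sha
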