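import Mathlib
import Pool.Agent.K1H82.Sha.Obs

/-! Arithmetic of the square roots of primes `q_i ≡ 1 mod 8` which are squares modulo all `p ∈ T`. -/

set_option autoImplicit false
set_option linter.all false

open NumberField IsDedekindDomain Module

namespace Pool.Agent.K1H82.Sha

open Pool.Agent.TeamU

/-- distinct primes `≡ 1 mod 8` which are non-zero squares modulo the primes in `T` -/
structure QData (T : Finset ℕ) (n : ℕ) (q : Fin (n + 1) → ℕ) : Prop where
  prime : ∀ i, (q i).Prime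
  inj : Function.Injective q
  mod8 : ∀ i, q i % 8 = 1
  notDvd : ∀ i, ∀ p ∈ T, ¬ p ∣ q i
  sq : ∀ i, ∀ p ∈ T, ∃ a : ℕ, (p : ℤ) ∣ (q i : ℤ) - (a : ℤ) ^ 2

section loc

variable {L : Type} [Field L] [NumberField L]

theorem val_nat_one (P : HeightOneSpectrum (𝓞 L)) {p a : ℕ} (hp : p.Prime)
    (hP : (p : 𝓞 L) ∈ P.asIdeal) (ha : ¬ p ∣ a) : P.valuation L (a : L) = 1 := by
  apply F2c.val_coprime P ((Nat.Prime.coprime_iff_not_dvd hp).mpr ha)
  have := (HeightOneSpectrum.valuation_lt_one_iff_mem (K := L) P (p : 𝓞 L)).2 hP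
  simpa using this

/-- a square modulo `p`, prime to `p`, is a local square above `p` -/
theorem locSq_nat (P : HeightOneSpectrum (𝓞 L)) {p m a : ℕ} (hp : p.Prime) (hp2 : p ≠ 2)
    (hP : (p : 𝓞 L) ∈ P.asIdeal) (hm : ¬ p ∣ m) (h : (p : ℤ) ∣ (m : ℤ) - (a : ℤ) ^ 2) :
    LocSq P (m : L) := by
  have ha : ¬ p ∣ a := by
    intro ha
    apply hm
    have h1 : (p : ℤ) ∣ (a : ℤ) ^ 2 := dvd_pow (by exact_mod_cast ha) two_ne_zero
    have h2 := dvd_add h h1
    rw [sub_add_cancel] at h2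
    exact_mod_cast h2
  have hva := val_nat_one P hp hP ha
  have ha0 : (a : L) ≠ 0 := by
    intro h0
    rw [h0, map_zero] at hva
    exact zero_ne_one hva
  refine ⟨(a : L), (m : L) / (a : L) ^ 2, by field_simp, ha0, Or.inl ⟨two_notMem P hp hp2 hP, ?_⟩⟩
  have e : (m : L) / (a : L) ^ 2 - 1 = ((m : L) - (a : L) ^ 2) / (a : L) ^ 2 := by field_simp
  rw [e, map_div₀, map_pow, hva, one_pow, div_one]
  apply B7.lt_one_iff.1
  obtain ⟨c, hc⟩ := h
  have e2 : ((m : L) - (a : L) ^ 2) = algebraMap (𝓞 L) L ((p : 𝓞 L) * (c : 𝓞 L)) := by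
    rw [map_mul, map_natCast, map_intCast]
    exact_mod_cast congrArg (Int.cast : ℤ → L) hc
  rw [e2, HeightOneSpectrum.valuation_lt_one_iff_mem]
  exact P.asIdeal.mul_mem_right _ hP

theorem locSq_two (h2 : TwoSplit L) (P : HeightOneSpectrum (𝓞 L)) (hP : (2 : 𝓞 L) ∈ P.asIdeal)
    (m : ℕ) (hm : m % 8 = 1) : LocSq P (m : L) := by
  refine ⟨1, (m : L), by ring, one_ne_zero, Or.inr ?_⟩
  obtain ⟨c, hc⟩ : ∃ c : ℕ, m = 1 + 2 ^ 3 * c := ⟨m / 8, by omega⟩
  have h1 : ((m : L) - 1) = 2 ^ 3 * (c : L) := by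
    rw [hc]; push_cast; ring
  rw [h1, map_mul, map_pow, B7.val_two P h2 hP]
  calc _ ≤ WithZero.exp (-1 : ℤ) ^ 3 * 1 := by
        gcongr
        exact F2c.val_nat_le P c
    _ = WithZero.exp (-3 : ℤ) := by
        rw [mul_one, ← WithZero.exp_nsmul]
        norm_num

end loc

variable {T : Finset ℕ} {n : ℕ} {q : Fin (n + 1) → ℕ}

theorem QData.prod_mod8 (h : QData T n q) : (∏ i, q i) % 8 = 1 :=
  prod_mod_eight _ q (fun i _ => h.mod8 i)

theorem QData.prod_ne_zero (h : QData T n q) : (∏ i, q i) ≠ 0 := by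
  have := h.prod_mod8
  omega

/-- the product over a subset is a square modulo `p` and prime to `p` -/
theorem QData.prod_sq (h : QData T n q) (hT : ∀ p ∈ T, p.Prime) (S : Finset (Fin (n + 1))) (p : ℕ)
    (hp : p ∈ T) :
    ¬ p ∣ ∏ i ∈ S, q i ∧ ∃ a : ℕ, (p : ℤ) ∣ ((∏ i ∈ S, q i : ℕ) : ℤ) - (a : ℤ) ^ 2 := by
  classical
  induction S using Finset.induction_on with
  | empty =>
    refine ⟨?_, 1, ?_⟩
    · simp only [Finset.prod_empty]
      exact (hT p hp).one_lt.ne' ∘ Nat.dvd_one.mp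
    · simp
  | insert i S hi ih =>
    obtain ⟨h1, a, ha⟩ := ih
    obtain ⟨b, hb⟩ := h.sq i p hp
    rw [Finset.prod_insert hi]
    refine ⟨?_, a * b, ?_⟩
    · rw [(hT p hp).dvd_mul]
      push Not
      exact ⟨h.notDvd i p hp, h1⟩
    · push_cast at ha hb ⊢
      have e : (q i : ℤ) * (∏ i ∈ S, (q i : ℤ)) - ((a : ℤ) * b) ^ 2 =
          (q i : ℤ) * ((∏ i ∈ S, (q i : ℤ)) - (a : ℤ) ^ 2) + (a : ℤ) ^ 2 * ((q i : ℤ) - (b : ℤ) ^ 2) := by
        ring
      rw [e]
      exact dvd_add (Dvd.dvd.mul_left ha _) (Dvd.dvd.mul_left hb _)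

/-- a nonempty product of distinct primes is not a rational square -/
theorem QData.not_sq (h : QData T n q) (S : Finset (Fin (n + 1))) (hS : S.Nonempty) (r : ℚ) :
    r ^ 2 ≠ ((∏ i ∈ S, q i : ℕ) : ℚ) := by
  intro h0
  have h1 : IsSquare ((∏ i ∈ S, q i : ℕ) : ℚ) := ⟨r, by rw [← h0, pow_two]⟩
  rw [Rat.isSquare_natCast_iff] at h1
  obtain ⟨m, hm⟩ := h1
  obtain ⟨i, hi⟩ := hS
  have hp := h.prime i
  have h2 : q i ∣ m := by
    have : q i ∣ m * m := by
      rw [← hm]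
      exact Finset.dvd_prod_of_mem q hi
    exact (hp.dvd_mul.mp this).elim id id
  obtain ⟨c, rfl⟩ := h2
  rw [← Finset.mul_prod_erase S q hi] at hm
  have h3 : ∏ j ∈ S.erase i, q j = q i * (c * c) := by
    apply Nat.eq_of_mul_eq_mul_left hp.pos
    rw [hm]; ring
  have h4 : q i ∣ ∏ j ∈ S.erase i, q j := ⟨_, h3⟩
  rw [Prime.dvd_finsetProd_iff hp.prime] at h4
  obtain ⟨j, hj, hij⟩ := h4
  rw [Nat.prime_dvd_prime_iff_eq hp (h.prime j)] at hij
  exact (Finset.mem_erase.mp hj).1 (h.inj hij.symm)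

section even

variable {L : Type} [Field L] [NumberField L]

theorem QData.even_q (h : QData T n q) (s : L) (hs : s ^ 2 = ((∏ i, q i : ℕ) : L))
    (i : Fin (n + 1)) (P : HeightOneSpectrum (𝓞 L)) :
    ∃ y : L, P.valuation L (q i : L) = P.valuation L y ^ 2 := by
  classical
  by_cases h0 : P.valuation L (q i : L) = 1
  · exact ⟨1, by rw [h0]; simp⟩
  · have hlt : P.valuation L (q i : L) < 1 := lt_of_le_of_ne (F2c.val_nat_le P _) h0
    refine ⟨s, ?_⟩
    rw [← map_pow, hs]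
    have hm : ∏ j, q j = q i * ∏ j ∈ Finset.univ.erase i, q j :=
      (Finset.mul_prod_erase Finset.univ q (Finset.mem_univ i)).symm
    have hb : Nat.Coprime (q i) (∏ j ∈ Finset.univ.erase i, q j) := by
      apply Nat.Coprime.prod_right
      intro j hj
      rw [Nat.coprime_primes (h.prime i) (h.prime j)]
      intro he
      exact (Finset.mem_erase.mp hj).1 (h.inj he.symm)
    rw [hm, Nat.cast_mul, map_mul, F2c.val_coprime P hb hlt, mul_one]

theorem QData.even1T (h : QData T n q) (hT : OddPrimes T) (h2 : TwoSplit L) (s : L)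
    (hs : s ^ 2 = ((∏ i, q i : ℕ) : L)) (i : Fin (n + 1)) : Even1T T L (q i : L) := by
  have hq0 : q i ≠ 0 := (h.prime i).ne_zero
  refine ⟨⟨by exact_mod_cast hq0, h.even_q s hs i, ?_, ?_⟩, ?_⟩
  · intro P hP
    exact locSq_two h2 P hP _ (h.mod8 i)
  · intro φ
    rw [map_natCast]
    exact_mod_cast Nat.pos_of_ne_zero hq0
  · intro P p hp hP
    obtain ⟨a, ha⟩ := h.sq i p hp
    exact locSq_nat P (hT p hp).1 (hT p hp).2 hP (h.notDvd i p hp) ha

end even

/-! ### the rank of `Hom(Gal(L/k), F_2)` -/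

theorem QData.key (h : QData T n q) (k : Type) [Field k] [NumberField k] (hk : finrank ℚ k = 2)
    (s : k) (hs : s ^ 2 = ((∏ i, q i : ℕ) : k)) (S : Finset (Fin n)) (hS : S.Nonempty) (y : k) :
    y ^ 2 ≠ ((∏ i ∈ S, q i.castSucc : ℕ) : k) := by
  classical
  intro hy
  let T' : Finset (Fin (n + 1)) := S.map Fin.castSuccEmb
  have hT' : T'.Nonempty := by simpa [T'] using hS
  have hTc : T'ᶜ.Nonempty := by
    refine ⟨Fin.last n, ?_⟩
    rw [Finset.mem_compl, Finset.mem_map]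
    rintro ⟨i, -, hi⟩
    exact (Fin.castSucc_lt_last i).ne hi
  have hprod : ∏ i ∈ S, q i.castSucc = ∏ i ∈ T', q i := by
    rw [Finset.prod_map]
    rfl
  have hm : ∏ i, q i = (∏ i ∈ T', q i) * ∏ i ∈ T'ᶜ, q i := by
    rw [Finset.prod_mul_prod_compl]
  set c := ∏ i ∈ T', q i with hc
  set c' := ∏ i ∈ T'ᶜ, q i with hc'
  have hc0 : (c : ℚ) ≠ 0 := by
    intro h0
    have : c = 0 := by exact_mod_cast h0
    rw [hc, Finset.prod_eq_zero_iff] at this
    obtain ⟨i, -, hi⟩ := this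
    exact (h.prime i).ne_zero hi
  have hsr : s ∉ (algebraMap ℚ k).range := by
    rintro ⟨r, rfl⟩
    apply h.not_sq Finset.univ Finset.univ_nonempty r
    apply (algebraMap ℚ k).injective
    rw [map_pow, hs, map_natCast]
  obtain ⟨a, b, rfl⟩ := F3.exists_coord k hk s hsr y
  rw [hprod] at hy
  have hy' : algebraMap ℚ k (a ^ 2 + b ^ 2 * ((∏ i, q i : ℕ) : ℚ) - c) +
      algebraMap ℚ k (2 * a * b) * s = 0 := by
    simp only [map_add, map_sub, map_mul, map_pow, map_natCast, map_ofNat]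
    linear_combination hy - algebraMap ℚ k b ^ 2 * hs
  have hab : 2 * a * b = 0 := by
    by_contra hne
    apply hsr
    refine ⟨-(a ^ 2 + b ^ 2 * ((∏ i, q i : ℕ) : ℚ) - c) / (2 * a * b), ?_⟩
    have hne' : algebraMap ℚ k (2 * a * b) ≠ 0 := by simpa using hne
    rw [map_div₀, map_neg, div_eq_iff hne']
    linear_combination -hy'
  rw [hab, map_zero, zero_mul, add_zero, map_eq_zero] at hy'
  rcases mul_eq_zero.mp hab with h0 | h0
  · have ha : a = 0 := by simpa using h0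
    rw [ha, hm] at hy'
    push_cast at hy'
    have h1 : b ^ 2 * (c' : ℚ) = 1 := by
      apply mul_left_cancel₀ hc0
      linear_combination hy'
    have hb0 : b ≠ 0 := by rintro rfl; norm_num at h1
    apply h.not_sq T'ᶜ hTc (1 / b)
    rw [← hc']
    field_simp
    linear_combination -h1
  · rw [h0] at hy'
    apply h.not_sq T' hT' a
    rw [← hc]
    linear_combination hy'

open F3 in
/-- the rank of `Hom(G, F_2)` is at least `n`. -/
theorem QData.rank_Z1 (h : QData T n q) (k : Type) [Field k] [NumberField k]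
    (hk : finrank ℚ k = 2) (s : k) (hs : s ^ 2 = ((∏ i, q i : ℕ) : k))
    (L : Type) [Field L] [NumberField L] [Algebra k L] [IsGalois k L]
    (hq : ∀ i, ∃ z : L, z ^ 2 = (q i : L)) :
    n ≤ finrank (ZMod 2) (Z1 (L ≃ₐ[k] L)) := by
  classical
  choose z hz using hq
  let v : Fin n → Z1 (L ≃ₐ[k] L) := fun i =>
    ⟨chi (z i.castSucc), chi_mem _ _ (h.prime i.castSucc).ne_zero (hz i.castSucc)⟩
  have hli : LinearIndependent (ZMod 2) v := by
    rw [Fintype.linearIndependent_iff]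
    intro g hg
    by_contra hcon
    push Not at hcon
    obtain ⟨i₀, hi₀⟩ := hcon
    let S : Finset (Fin n) := Finset.univ.filter fun i => g i ≠ 0
    have hS : S.Nonempty := ⟨i₀, by simp [S, hi₀]⟩
    have hsum : ∀ σ : L ≃ₐ[k] L, ∑ i ∈ S, chi (z i.castSucc) σ = 0 := by
      intro σ
      have h1 := congrArg (fun u : Z1 (L ≃ₐ[k] L) => u.1 σ) hg
      simp only [Submodule.coe_sum, Submodule.coe_smul, Finset.sum_apply, Pi.smul_apply,
        smul_eq_mul, ZeroMemClass.coe_zero, Pi.zero_apply] at h1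
      rw [← h1, Finset.sum_filter]
      apply Finset.sum_congr rfl
      intro i _
      rcases zmod2 (g i) with h2 | h2
      · simp [h2]
      · simp [h2, v]
    let Z : L := ∏ i ∈ S, z i.castSucc
    have hfix : ∀ σ : L ≃ₐ[k] L, σ Z = Z := by
      intro σ
      have h1 : σ Z = ∏ i ∈ S, F3.sgn L (chi (z i.castSucc) σ) * z i.castSucc := by
        rw [map_prod]
        apply Finset.prod_congr rfl
        intro i _
        exact chi_spec _ _ (hz i.castSucc) σ
      rw [h1, Finset.prod_mul_distrib, ← F3.sgn_sum, hsum σ, F3.sgn_zero, one_mul]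
    obtain ⟨y, hy⟩ : ∃ y : k, algebraMap k L y = Z := by
      have := (IsGalois.mem_range_algebraMap_iff_fixed (F := k) Z).mpr hfix
      obtain ⟨y, hy⟩ := this
      exact ⟨y, hy⟩
    apply h.key k hk s hs S hS y
    apply (algebraMap k L).injective
    rw [map_pow, hy, map_natCast]
    simp only [Z]
    rw [← Finset.prod_pow]
    push_cast
    exact Finset.prod_congr rfl fun i _ => hz i.castSucc
  have h8 := hli.fintype_card_le_finrank
  simpa using h8

/-! ### the base field -/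

/-- `ℚ` has residue degree one everywhere -/
theorem tSplit_rat (T : Finset ℕ) (hT : ∀ p ∈ T, p.Prime) : TSplit T ℚ := by
  intro v p hp hv
  have hpp := hT p hp
  have h1 : Ideal.absNorm (Ideal.span {(p : 𝓞 ℚ)}) = p := by
    rw [Ideal.absNorm_span_singleton]
    have : (p : 𝓞 ℚ) = algebraMap ℤ (𝓞 ℚ) p := by simp
    rw [this, Algebra.norm_algebraMap, RingOfIntegers.rank]
    simp
  have h2 : v.asIdeal ∣ Ideal.span {(p : 𝓞 ℚ)} := by
    rw [Ideal.dvd_span_singleton]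
    exact hv
  have h3 := map_dvd Ideal.absNorm h2
  rw [h1, Nat.dvd_prime hpp] at h3
  have h4 : Ideal.absNorm v.asIdeal ≠ 1 := by
    rw [Ne, Ideal.absNorm_eq_one_iff]
    exact v.isPrime.ne_top
  have h5 : Ideal.absNorm v.asIdeal = p := by tauto
  rw [← h5, Ideal.absNorm_apply, Submodule.cardQuot_apply]

/-- the base field -/
theorem QData.exists_base (h : QData T n q) (hT : OddPrimes T) :
    ∃ (k : Type) (_ : Field k) (_ : NumberField k), finrank ℚ k = 2 ∧
    IsTotallyReal k ∧ TwoSplit k ∧ TSplit T k ∧ ∃ s : k, s ^ 2 = ((∏ i, q i : ℕ) : k) := by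
  have hfact : Fact (∀ r : ℚ, r ^ 2 ≠ ((∏ i, q i : ℕ) : ℚ) + 0 * r) :=
    ⟨fun r => by rw [zero_mul, add_zero]; exact h.not_sq Finset.univ Finset.univ_nonempty r⟩
  have h2 := KI.finrank_QE ((∏ i, q i : ℕ) : ℚ)
  have hne : ((∏ i, q i : ℕ) : ℚ) ≠ 0 := by exact_mod_cast h.prod_ne_zero
  have hdy : ∀ v : HeightOneSpectrum (𝓞 ℚ), (2 : 𝓞 ℚ) ∈ v.asIdeal →
      Splits (KI.QE ((∏ i, q i : ℕ) : ℚ)) v := fun v hv =>
    splits_of_locSq h2 v (twoSplit_rat v hv).2 ((∏ i, q i : ℕ) : ℚ) hne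
      QuadraticAlgebra.omega (KI.omega_sq _) (KI.omega_notin _)
      (locSq_two twoSplit_rat v hv _ h.prod_mod8)
  refine ⟨KI.QE ((∏ i, q i : ℕ) : ℚ), inferInstance, inferInstance, ?_, ?_, ?_, ?_, ?_⟩
  · convert h2
  · apply KI.totallyReal_QE
    intro φ
    rw [map_natCast]
    exact_mod_cast Nat.pos_of_ne_zero h.prod_ne_zero
  · exact twoSplit_of_splits h2 twoSplit_rat hdy
  · intro P p hp hP
    obtain ⟨v, hv⟩ := TeamU.exists_under ℚ (KI.QE ((∏ i, q i : ℕ) : ℚ)) P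
    have hvp : (p : 𝓞 ℚ) ∈ v.asIdeal := (natCast_mem_of_over hv p).mp hP
    have h2v := two_notMem v (hT p hp).1 (hT p hp).2 hvp
    obtain ⟨hnd, a, ha⟩ := h.prod_sq (fun p hp => (hT p hp).1) Finset.univ p hp
    have hs : Splits (KI.QE ((∏ i, q i : ℕ) : ℚ)) v :=
      splits_of_locSq h2 v (fun h => h2v (Ideal.pow_le_self two_ne_zero h)) _ hne
        QuadraticAlgebra.omega (KI.omega_sq _) (KI.omega_notin _)
        (locSq_nat v (hT p hp).1 (hT p hp).2 hvp hnd ha)
    rw [(unr_of_splits h2 v hs P hv).2]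
    exact tSplit_rat T (fun p hp => (hT p hp).1) v p hp hvp
  · refine ⟨QuadraticAlgebra.omega, ?_⟩
    rw [KI.omega_sq, map_natCast]

end Pool.Agent.K1H82.Sha
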