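import Mathlib
import Pool.Agent.K1H82.Sha.Base

/-! Good subfields of an algebraically closed field, closed under adjoining square roots, and
normality over `ℚ`. -/

set_option autoImplicit false
set_option linter.all false

open NumberField IsDedekindDomain Module IntermediateField

namespace Pool.Agent.K1H82.Sha

open Pool.Agent.TeamU
open Pool.Agent.H718R3.NT (good_of_equiv invSq_transfer nf_of_fin)

theorem goodT_of_equiv {T : Finset ℕ} (hT : OddPrimes T) {k L L' : Type} [Field k] [NumberField k]
    [Field L] [NumberField L] [Field L'] [NumberField L'] [Algebra k L] [Algebra k L']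
    (e : L ≃ₐ[k] L') (h : GoodT T k L) : GoodT T k L' := by
  refine ⟨good_of_equiv e h.good, ?_⟩
  let _ : Algebra L' L := (e.symm : L' →+* L).toAlgebra
  exact tSplit_desc T hT L' L h.ts

section

variable {k F : Type} [Field k] [NumberField k] [Field F] [Algebra k F]

/-- an intermediate field which is good -/
def GoodTF (T : Finset ℕ) (L : IntermediateField k F) : Prop := ∃ _ : NumberField L, GoodT T k L

theorem GoodTF.fin {T : Finset ℕ} {L : IntermediateField k F} (h : GoodTF T L) :
    FiniteDimensional k L := by
  obtain ⟨h1, h2⟩ := h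
  exact Module.Finite.of_restrictScalars_finite ℚ k L

theorem goodTF_range {T : Finset ℕ} (hT : OddPrimes T) {L' : Type} [Field L'] [NumberField L']
    [Algebra k L'] (h : GoodT T k L') (f : L' →ₐ[k] F) : GoodTF T f.fieldRange := by
  have e : L' ≃ₐ[k] f.fieldRange := AlgEquiv.ofInjectiveField f
  have : NumberField f.fieldRange := NumberField.of_ringEquiv _ _ e.toRingEquiv
  exact ⟨this, goodT_of_equiv hT e h⟩

/-- the square root step -/
theorem step_goodT {T : Finset ℕ} (hT : OddPrimes T) [IsAlgClosed F] (L : IntermediateField k F)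
    [NumberField L] (hL : GoodT T k L) (g : L) (he : Even1T T L g) (hi : InvSq k g) (r : F)
    (hr : r ^ 2 = (g : F)) : GoodTF T (L ⊔ k⟮r⟯) := by
  by_cases hsq : IsSquare g
  · obtain ⟨t, ht⟩ := hsq
    have hrL : r ∈ L := by
      have h1 : r ^ 2 = (t : F) ^ 2 := by
        rw [hr, ht, sq]
        rfl
      rcases sq_eq_sq_iff_eq_or_eq_neg.mp h1 with h2 | h2
      · rw [h2]; exact t.2
      · rw [h2]; exact neg_mem t.2
    have h3 : L ⊔ k⟮r⟯ = L := by
      rw [sup_eq_left, adjoin_simple_le_iff]
      exact hrL
    rw [h3]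
    exact ⟨inferInstance, hL⟩
  · obtain ⟨L', i1, i2, i3, i4, hst, hgood, h2, z, hz⟩ := kummer_stepT T hT k L hL g hsq he hi
    have hfin : FiniteDimensional k L := Module.Finite.of_restrictScalars_finite ℚ k L
    have hfin' : FiniteDimensional k L' := Module.Finite.of_restrictScalars_finite ℚ k L'
    have hfinL : FiniteDimensional L L' := Module.Finite.of_restrictScalars_finite k L L'
    let f : L' →ₐ[L] F := IsAlgClosed.lift
    let f' : L' →ₐ[k] F := f.restrictScalars k
    have hle1 : L ≤ f'.fieldRange := by
      intro x hx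
      refine ⟨algebraMap L L' ⟨x, hx⟩, ?_⟩
      change f (algebraMap L L' ⟨x, hx⟩) = x
      rw [f.commutes]
      rfl
    have hr1 : r ∈ f'.fieldRange := by
      have h3 : r ^ 2 = (f z) ^ 2 := by
        rw [← map_pow, hz, f.commutes, hr]
        rfl
      rcases sq_eq_sq_iff_eq_or_eq_neg.mp h3 with h4 | h4
      · rw [h4]; exact ⟨z, rfl⟩
      · rw [h4]; exact ⟨-z, map_neg f z⟩
    have hle : L ⊔ k⟮r⟯ ≤ f'.fieldRange := by
      refine sup_le hle1 ?_
      rw [adjoin_simple_le_iff]
      exact hr1
    have hrL : r ∉ L := by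
      intro hrL
      apply hsq
      refine ⟨⟨r, hrL⟩, ?_⟩
      apply Subtype.ext
      change (g : F) = r * r
      rw [← hr, sq]
    have hfr : finrank k f'.fieldRange = 2 * finrank k L := by
      have h5 : finrank k L' = finrank k f'.fieldRange :=
        (AlgEquiv.ofInjectiveField f').toLinearEquiv.finrank_eq
      rw [← h5, ← finrank_mul_finrank k L L', h2, mul_comm]
    have hfinR : FiniteDimensional k f'.fieldRange :=
      Module.Finite.equiv (AlgEquiv.ofInjectiveField f' : L' ≃ₐ[k] f'.fieldRange).toLinearEquiv
    have heq : L ⊔ k⟮r⟯ = f'.fieldRange := by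
      apply eq_of_le_of_finrank_le hle
      obtain ⟨m, hm⟩ := finrank_dvd_of_le_right (le_sup_left : L ≤ L ⊔ k⟮r⟯)
      have hpos : 0 < finrank k L := finrank_pos
      have hfinS : FiniteDimensional k (L ⊔ k⟮r⟯ : IntermediateField k F) :=
        Module.Finite.of_injective (IntermediateField.inclusion hle).toLinearMap
          (IntermediateField.inclusion hle).injective
      have hpos2 : 0 < finrank k (L ⊔ k⟮r⟯ : IntermediateField k F) := finrank_pos
      have hm1 : m ≠ 1 := by
        rintro rfl
        have h5 : L = L ⊔ k⟮r⟯ := eq_of_le_of_finrank_eq le_sup_left (by rw [hm, mul_one])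
        apply hrL
        rw [h5]
        exact (le_sup_right : k⟮r⟯ ≤ L ⊔ k⟮r⟯) (mem_adjoin_simple_self k r)
      have hm0 : m ≠ 0 := by
        rintro rfl
        omega
      rw [hfr, hm, mul_comm]
      exact Nat.mul_le_mul_left _ (by omega)
    rw [heq]
    exact goodTF_range hT hgood f'

/-- adjoining finitely many square roots -/
theorem multi_step {T : Finset ℕ} (hT : OddPrimes T) [IsAlgClosed F] (L : IntermediateField k F)
    [NumberField L] (hL : GoodT T k L) {ι : Type} [DecidableEq ι] (g : ι → L)
    (he : ∀ i, Even1T T L (g i)) (hi : ∀ i, InvSq k (g i)) (r : ι → F)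
    (hr : ∀ i, r i ^ 2 = (g i : F)) (A : Finset ι) : GoodTF T (L ⊔ adjoin k (r '' (A : Set ι))) := by
  have hgal := hL.good.galois
  induction A using Finset.induction_on with
  | empty =>
    have : L ⊔ adjoin k (r '' ((∅ : Finset ι) : Set ι)) = L := by simp
    rw [this]
    exact ⟨inferInstance, hL⟩
  | insert a A ha ih =>
    obtain ⟨i1, h1⟩ := ih
    set L1 := L ⊔ adjoin k (r '' (A : Set ι)) with hL1
    have hle : L ≤ L1 := le_sup_left
    let _ : Algebra L L1 := (IntermediateField.inclusion hle).toRingHom.toAlgebra
    have : IsScalarTower k L L1 := IsScalarTower.of_algebraMap_eq fun x => rfl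
    have h2 := step_goodT hT L1 h1 (algebraMap L L1 (g a))
      (even1T_transfer T k L L1 h1.good.unr (g a) (he a))
      (invSq_transfer k L L1 (g a) (hi a)) (r a) (by rw [hr a]; rfl)
    have h3 : L1 ⊔ k⟮r a⟯ = L ⊔ adjoin k (r '' ((insert a A : Finset ι) : Set ι)) := by
      rw [hL1, sup_assoc, Finset.coe_insert, Set.image_insert_eq, ← adjoin_union, Set.union_comm,
        Set.singleton_union]
    rw [← h3]
    exact h2

end

/-! ### normality over `ℚ` -/

section normal

variable {F : Type} [Field F] [Algebra ℚ F] [IsAlgClosed F] [Algebra.IsAlgebraic ℚ F]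
variable (k : IntermediateField ℚ F)

/-- stability of a compositum with square roots -/
theorem normal_sup [Normal ℚ k] (L : IntermediateField k F) [Normal ℚ L] (R : Set F)
    (hR : ∀ (φ : F ≃ₐ[ℚ] F), ∀ x ∈ R, φ x ∈ R ∨ -(φ x) ∈ R) :
    Normal ℚ (L ⊔ adjoin k R : IntermediateField k F) := by
  have hN : Normal ℚ F := by
    have : IsAlgClosure ℚ F := ⟨inferInstance, inferInstance⟩
    exact IsAlgClosure.normal ℚ F
  set L' : IntermediateField k F := L ⊔ adjoin k R with hL'
  have key : @Normal ℚ (L'.restrictScalars ℚ) _ _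
      (IntermediateField.algebra' (L'.restrictScalars ℚ)) := by
    rw [IntermediateField.normal_iff_forall_map_le']
    intro φ
    have hk : ∀ x : k, ∃ y : k, φ (x : F) = (y : F) := by
      intro x
      refine ⟨φ.restrictNormal k x, ?_⟩
      exact (AlgEquiv.restrictNormal_commutes φ k x).symm
    let S : IntermediateField k F :=
      { carrier := {x | φ x ∈ L'}
        mul_mem' := by
          intro a b ha hb
          change φ (a * b) ∈ L'
          rw [map_mul]
          exact mul_mem ha hb
        add_mem' := by
          intro a b ha hb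
          change φ (a + b) ∈ L'
          rw [map_add]
          exact add_mem ha hb
        inv_mem' := by
          intro a ha
          change φ a⁻¹ ∈ L'
          rw [map_inv₀]
          exact inv_mem ha
        algebraMap_mem' := by
          intro x
          obtain ⟨y, hy⟩ := hk x
          change φ (x : F) ∈ L'
          rw [hy]
          exact L'.algebraMap_mem y }
    have h1 : L ≤ S := by
      intro x hx
      change φ x ∈ L'
      have h2 : φ x = ((φ.restrictNormal L ⟨x, hx⟩ : L) : F) :=
        (AlgEquiv.restrictNormal_commutes φ L ⟨x, hx⟩).symm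
      rw [h2]
      exact (le_sup_left : L ≤ L') (φ.restrictNormal L ⟨x, hx⟩).2
    have h2 : adjoin k R ≤ S := by
      rw [adjoin_le_iff]
      intro x hx
      change φ x ∈ L'
      have h3 : R ⊆ (L' : Set F) := fun y hy => (le_sup_right : adjoin k R ≤ L') (subset_adjoin k R hy)
      rcases hR φ x hx with h4 | h4
      · exact h3 h4
      · have h5 := neg_mem (h3 h4 : -(φ x) ∈ L')
        rwa [neg_neg] at h5
    have h3 : L' ≤ S := sup_le h1 h2
    rintro _ ⟨x, hx, rfl⟩
    exact h3 hx
  have e : ∀ i j : Algebra ℚ L', @Normal ℚ L' _ _ i → @Normal ℚ L' _ _ j := by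
    intro i j h
    rwa [Subsingleton.elim j i]
  exact e _ _ key

end normal

end Pool.Agent.K1H82.Sha
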