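import Mathlib
import Pool.Agent.K1H82.Sha.Step

/-! The infinite tower: an increasing sequence of good extensions of `k` which are normal over `ℚ`. -/

set_option autoImplicit false
set_option linter.all false

open NumberField IsDedekindDomain Module IntermediateField

namespace Pool.Agent.K1H82.Sha

open Pool.Agent.TeamU
open Pool.Agent.H718R3.NT (good_of_equiv invSq_transfer nf_of_fin)

/-- the degree over `ℚ` -/
noncomputable abbrev deg (K : Type) [Field K] [NumberField K] : ℕ := finrank ℚ K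

theorem normal_of_deg {K : Type} [Field K] [NumberField K] (h : deg K = 2) : Normal ℚ K := by
  have : Algebra.IsQuadraticExtension ℚ K := ⟨h⟩
  infer_instance

theorem deg_congr {K K' : Type} [Field K] [NumberField K] [Field K'] [NumberField K']
    (e : K ≃+* K') : deg K = deg K' := by
  let e' : K ≃ₐ[ℚ] K' := AlgEquiv.ofRingEquiv (f := e) (fun x => by
    rw [eq_ratCast, eq_ratCast, map_ratCast])
  exact e'.toLinearEquiv.finrank_eq

/-! ### conjugates over `ℚ` -/

section conj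

variable {L : Type} [Field L] [NumberField L]

theorem exists_act_eq {k : Type} [Field k] [Algebra k L] (σ : L ≃ₐ[k] L)
    (P : HeightOneSpectrum (𝓞 L)) : ∃ P' : HeightOneSpectrum (𝓞 L), act σ P' = P := by
  refine ⟨act σ⁻¹ P, ?_⟩
  rw [← act_mul, mul_inv_cancel, act_one]

theorem natCast_mem_act {k : Type} [Field k] [Algebra k L] (σ : L ≃ₐ[k] L)
    (P : HeightOneSpectrum (𝓞 L)) (p : ℕ) :
    (p : 𝓞 L) ∈ (act σ P).asIdeal ↔ (p : 𝓞 L) ∈ P.asIdeal := by
  rw [mem_act, map_natCast]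

theorem even1T_conj {T : Finset ℕ} (σ : L ≃ₐ[ℚ] L) {g : L} (h : Even1T T L g) :
    Even1T T L (σ g) := by
  refine ⟨⟨?_, ?_, ?_, ?_⟩, ?_⟩
  · simpa using h.ev.ne
  · intro P
    obtain ⟨P', rfl⟩ := exists_act_eq σ P
    obtain ⟨y, hy⟩ := h.ev.even P'
    exact ⟨σ y, by rw [val_act, val_act, hy]⟩
  · intro P hP
    obtain ⟨P', rfl⟩ := exists_act_eq σ P
    refine locSq_act σ (h.ev.loc P' ?_)
    have := (natCast_mem_act σ P' 2).mp (by simpa using hP)
    simpa using this
  · intro φ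
    exact h.ev.pos (φ.comp (σ : L →+* L))
  · intro P p hp hP
    obtain ⟨P', rfl⟩ := exists_act_eq σ P
    exact locSq_act σ (h.locT P' p hp ((natCast_mem_act σ P' p).mp hP))

end conj

theorem invSq_conj {k L : Type} [Field k] [Field L] [Algebra k L] [Algebra ℚ k] [Algebra ℚ L]
    [IsScalarTower ℚ k L] [Normal ℚ k] (σ : L ≃ₐ[ℚ] L) {g : L} (h : InvSq k g) :
    InvSq k (σ g) := by
  intro τ
  have hσ : ∀ x : k, σ (algebraMap k L x) = algebraMap k L (σ.restrictNormal k x) := fun x =>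
    (AlgEquiv.restrictNormal_commutes σ k x).symm
  let τ' : L ≃ₐ[k] L :=
    AlgEquiv.ofRingEquiv (f := (σ.toRingEquiv.trans τ.toRingEquiv).trans σ.symm.toRingEquiv) (by
      intro x
      change σ.symm (τ (σ (algebraMap k L x))) = algebraMap k L x
      rw [hσ, τ.commutes, ← hσ, σ.symm_apply_apply])
  obtain ⟨y, hy⟩ := h τ'
  refine ⟨σ y, ?_⟩
  have h1 : σ.symm (τ (σ g)) = y ^ 2 * g := hy
  have h2 := congrArg σ h1
  rw [σ.apply_symm_apply, map_mul, map_pow] at h2
  exact h2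

section tower

variable {F : Type} [Field F] [Algebra ℚ F] [IsAlgClosed F] [Algebra.IsAlgebraic ℚ F]

/-- the next field -/
theorem exists_next {T : Finset ℕ} (hT : OddPrimes T) (k : IntermediateField ℚ F) [NumberField k]
    [Normal ℚ k] (L : IntermediateField k F) [NumberField L] (hL : GoodT T k L) [Normal ℚ L]
    (g : L) (he : Even1T T L g) (hi : InvSq k g) (hg : ¬ IsSquare g) :
    ∃ L' : IntermediateField k F, L < L' ∧ GoodTF T L' ∧ Normal ℚ L' := by
  classical
  have hfin : Finite (L ≃ₐ[ℚ] L) := inferInstance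
  have := Fintype.ofFinite (L ≃ₐ[ℚ] L)
  choose r hr using fun σ : L ≃ₐ[ℚ] L =>
    IsAlgClosed.exists_pow_nat_eq ((σ g : L) : F) (n := 2) (by norm_num)
  have h1 := multi_step hT L hL (fun σ : L ≃ₐ[ℚ] L => σ g) (fun σ => even1T_conj σ he)
    (fun σ => invSq_conj σ hi) r hr Finset.univ
  refine ⟨_, ?_, h1, ?_⟩
  · refine lt_of_le_of_ne le_sup_left ?_
    intro h2
    apply hg
    have h3 : r 1 ∈ L ⊔ adjoin k (r '' ((Finset.univ : Finset (L ≃ₐ[ℚ] L)) : Set (L ≃ₐ[ℚ] L))) :=
      (le_sup_right : adjoin k _ ≤ _) (subset_adjoin k _ ⟨1, by simp, rfl⟩)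
    rw [← h2] at h3
    refine ⟨⟨r 1, h3⟩, ?_⟩
    apply Subtype.ext
    change (g : F) = r 1 * r 1
    rw [← sq, hr 1]
    rfl
  · apply normal_sup
    rintro φ _ ⟨τ, -, rfl⟩
    have h3 : (φ (r τ)) ^ 2 = (r (φ.restrictNormal L * τ)) ^ 2 := by
      rw [← map_pow, hr, hr]
      exact (AlgEquiv.restrictNormal_commutes φ L (τ g)).symm
    rcases sq_eq_sq_iff_eq_or_eq_neg.mp h3 with h4 | h4
    · left
      exact ⟨_, by simp, h4.symm⟩
    · right
      rw [h4, neg_neg]
      exact ⟨_, by simp, rfl⟩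

/-- the fields of the tower -/
structure St (T : Finset ℕ) {n : ℕ} (q : Fin (n + 1) → ℕ) {k : IntermediateField ℚ F}
    [NumberField k] (L : IntermediateField k F) : Prop where
  good : GoodTF T L
  normal : Normal ℚ L
  roots : ∀ i, ∃ z : L, z ^ 2 = (q i : L)

theorem exists_start {T : Finset ℕ} (hT : OddPrimes T) {n : ℕ} {q : Fin (n + 1) → ℕ}
    (h : QData T n q) (k : IntermediateField ℚ F) [NumberField k] [Normal ℚ k]
    (hr : IsTotallyReal k) (h2 : TwoSplit k) (hts : TSplit T k) (s : k)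
    (hs : s ^ 2 = ((∏ i, q i : ℕ) : k)) : ∃ L : IntermediateField k F, St T q L := by
  classical
  have hk : GoodT T k k := ⟨F2c.good_self k hr h2, hts⟩
  let e : k ≃ₐ[k] (⊥ : IntermediateField k F) := (botEquiv k F).symm
  have hnf : NumberField (⊥ : IntermediateField k F) := NumberField.of_ringEquiv _ _ e.toRingEquiv
  have hb : GoodT T k (⊥ : IntermediateField k F) := goodT_of_equiv hT e hk
  have hnb : Normal ℚ (⊥ : IntermediateField k F) := by
    have hst : IsScalarTower ℚ k (⊥ : IntermediateField k F) := inferInstance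
    exact Normal.of_algEquiv (e.restrictScalars ℚ)
  choose r hr' using fun i : Fin (n + 1) =>
    IsAlgClosed.exists_pow_nat_eq ((q i : ℕ) : F) (n := 2) (by norm_num)
  have h1 := multi_step hT (⊥ : IntermediateField k F) hb
    (fun i : Fin (n + 1) => (q i : (⊥ : IntermediateField k F)))
    (fun i => h.even1T hT hb.good.split2 (algebraMap k _ s)
      (by rw [← map_pow, hs, map_natCast]) i)
    (fun i σ => ⟨1, by rw [map_natCast]; ring⟩) r (fun i => by rw [hr']; simp) Finset.univ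
  refine ⟨_, h1, ?_, ?_⟩
  · apply normal_sup
    rintro φ _ ⟨i, -, rfl⟩
    have h3 : (φ (r i)) ^ 2 = (r i) ^ 2 := by
      rw [← map_pow, hr', map_natCast]
    rcases sq_eq_sq_iff_eq_or_eq_neg.mp h3 with h4 | h4
    · left
      exact ⟨i, by simp, h4.symm⟩
    · right
      rw [h4, neg_neg]
      exact ⟨i, by simp, rfl⟩
  · intro i
    refine ⟨⟨r i, (le_sup_right : adjoin k _ ≤ _) (subset_adjoin k _ ⟨i, by simp, rfl⟩)⟩, ?_⟩
    apply Subtype.ext
    change r i ^ 2 = _
    rw [hr']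
    simp

theorem exists_St_step {T : Finset ℕ} (hT : OddPrimes T) {n : ℕ} {q : Fin (n + 1) → ℕ}
    (h : QData T n q) (hn2 : 2 ≤ n) (hn : 4 * ((n + 2) + (6 + 4 * T.card)) ≤ n ^ 2)
    (k : IntermediateField ℚ F) [NumberField k] [Normal ℚ k] (hk : deg k = 2) (s : k)
    (hs : s ^ 2 = ((∏ i, q i : ℕ) : k)) (L : IntermediateField k F) (hL : St T q L) :
    ∃ L' : IntermediateField k F, St T q L' ∧ L < L' := by
  obtain ⟨⟨i1, hgood⟩, hnorm, hroots⟩ := hL
  have hgal := hgood.good.galois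
  have hgen : (powMonoidHom 2 : ClassGroup (𝓞 k) →* _).range.index ≤ 2 ^ (n + 2) :=
    genus k hk (n + 1) (Nat.succ_pos n) q h.prime h.inj h.mod8 s hs
  have hrank := h.rank_Z1 k hk s hs L hroots
  obtain ⟨g, hg1, hg2, hg3⟩ := exists_g T hT k L hgood.good hk (n + 2) n hgen hrank hn2 hn
  obtain ⟨L', h1, h2, h3⟩ := exists_next hT k L hgood g hg1 hg2 hg3
  refine ⟨L', ⟨h2, h3, ?_⟩, h1⟩
  intro i
  obtain ⟨z, hz⟩ := hroots i
  refine ⟨⟨z, h1.le z.2⟩, ?_⟩
  apply Subtype.ext
  have := congrArg (fun x : L => (x : F)) hz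
  simpa using this

/-- **The infinite tower.** -/
theorem exists_chain {T : Finset ℕ} (hT : OddPrimes T) {n : ℕ} {q : Fin (n + 1) → ℕ}
    (h : QData T n q) (hn2 : 2 ≤ n) (hn : 4 * ((n + 2) + (6 + 4 * T.card)) ≤ n ^ 2) :
    ∃ (k : IntermediateField ℚ F) (_ : NumberField k), deg k = 2 ∧
      (∃ s : k, s ^ 2 = ((∏ i, q i : ℕ) : k)) ∧
      ∃ L : ℕ → IntermediateField k F, StrictMono L ∧ ∀ j, GoodTF T (L j) ∧ Normal ℚ (L j) := by
  obtain ⟨k0, i1, i2, hk, hr, h2, hts, s0, hs0⟩ := h.exists_base hT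
  let f : k0 →ₐ[ℚ] F := IsAlgClosed.lift
  let e0 : k0 ≃+* f.fieldRange := (AlgEquiv.ofInjectiveField f).toRingEquiv
  have hnf : NumberField f.fieldRange := NumberField.of_ringEquiv _ _ e0
  have hk' : deg f.fieldRange = 2 := (deg_congr e0).symm.trans hk
  let _ : Algebra f.fieldRange k0 := (e0.symm : f.fieldRange →+* k0).toAlgebra
  have hr' : IsTotallyReal f.fieldRange := totallyReal_desc f.fieldRange k0 hr
  have h2' : TwoSplit f.fieldRange := twoSplit_desc f.fieldRange k0 h2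
  have hts' : TSplit T f.fieldRange := tSplit_desc T hT f.fieldRange k0 hts
  have hN : Normal ℚ f.fieldRange := normal_of_deg hk'
  have hs : (e0 s0) ^ 2 = ((∏ i, q i : ℕ) : f.fieldRange) := by
    rw [← map_pow, hs0, map_natCast]
  refine ⟨f.fieldRange, hnf, hk', ⟨e0 s0, hs⟩, ?_⟩
  obtain ⟨L0, hL0⟩ := exists_start hT h f.fieldRange hr' h2' hts' (e0 s0) hs
  choose nx hnx hlt using fun L : {L : IntermediateField f.fieldRange F // St T q L} =>
    exists_St_step hT h hn2 hn f.fieldRange hk' (e0 s0) hs L.1 L.2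
  let S : ℕ → {L : IntermediateField f.fieldRange F // St T q L} :=
    fun j => Nat.rec ⟨L0, hL0⟩ (fun _ L => ⟨nx L, hnx L⟩) j
  refine ⟨fun j => (S j).1, strictMono_nat_of_lt_succ fun j => hlt (S j), fun j =>
    ⟨(S j).2.good, (S j).2.normal⟩⟩

end tower

end Pool.Agent.K1H82.Sha
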