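import Mathlib
import Pool.Agent.K1H82.Sha.Defs

/-! The ramified primes of `ℚ(√m)` when two splits. -/

set_option autoImplicit false
set_option linter.all false

open NumberField IsDedekindDomain Module Polynomial

namespace Pool.Agent.K1H82.Sha

open Pool.Agent.TeamU hiding X

theorem adjoin_top {k : Type} [Field k] [NumberField k] (hk : finrank ℚ k = 2) (s : k)
    (hs : ∀ x : ℚ, s ≠ (x : k)) : Algebra.adjoin ℚ {s} = ⊤ := by
  have h1 : IsSimpleOrder (IntermediateField ℚ k) :=
    IntermediateField.isSimpleOrder_of_finrank_prime ℚ k (by rw [hk]; exact Nat.prime_two)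
  have h2 : IntermediateField.adjoin ℚ {s} ≠ ⊥ := by
    intro h
    have h3 : s ∈ (⊥ : IntermediateField ℚ k) := by
      rw [← h]
      exact IntermediateField.mem_adjoin_simple_self ℚ s
    rw [IntermediateField.mem_bot] at h3
    obtain ⟨x, hx⟩ := h3
    exact hs x (by rw [← hx]; simp)
  have h3 : IntermediateField.adjoin ℚ {s} = ⊤ := (h1.eq_bot_or_eq_top _).resolve_left h2
  have h4 : IsAlgebraic ℚ s := Algebra.IsAlgebraic.isAlgebraic s
  have h5 := IntermediateField.adjoin_simple_toSubalgebra_of_isAlgebraic h4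
  rw [← h5, h3]
  rfl

/-- the ramified primes of `ℚ(√m)` -/
theorem disc_quad (k : Type) [Field k] [NumberField k] (h2 : TwoSplit k) (hk : finrank ℚ k = 2)
    (s : k) (m : ℕ) (hm : ¬ IsSquare (m : ℚ)) (hs : s ^ 2 = (m : k)) (l : ℕ) (hl : l.Prime)
    (hld : (l : ℤ) ∣ discr k) : l ∣ m := by
  by_contra hlm
  revert hld
  rw [imp_false]
  rw [not_dvd_discr_iff_forall_mem k (𝓞 k) (Nat.prime_iff_prime_int.1 hl)]
  intro P hP hlP
  have hlP' : ((l : ℕ) : 𝓞 k) ∈ P := by exact_mod_cast hlP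
  have hl0 : ((l : ℕ) : 𝓞 k) ≠ 0 := by exact_mod_cast hl.ne_zero
  have hPb : P ≠ ⊥ := by
    rintro rfl
    exact hl0 (Ideal.mem_bot.1 hlP')
  have hPm : P.IsMaximal := hP.isMaximal hPb
  rw [← not_dvd_differentIdeal_iff]
  let v : HeightOneSpectrum (𝓞 k) := ⟨P, hP, hPb⟩
  by_cases hl2 : l = 2
  · subst hl2
    have h2P : (2 : 𝓞 k) ∈ P := by exact_mod_cast hlP'
    obtain ⟨hc, hn2⟩ := h2 v h2P
    let p : Ideal ℤ := Ideal.span {2}
    have hpp : p.IsPrime := by
      rw [Ideal.span_singleton_prime (by norm_num)]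
      exact Int.prime_two
    have hpb : p ≠ ⊥ := by
      rw [Ne, Ideal.span_singleton_eq_bot]
      norm_num
    have hpm : p.IsMaximal := hpp.isMaximal hpb
    have hfin : Finite (ℤ ⧸ p) := Ideal.finiteQuotientOfFreeOfNeBot p hpb
    have hmap : p.map (algebraMap ℤ (𝓞 k)) = Ideal.span {(2 : 𝓞 k)} := by
      rw [Ideal.map_span, Set.image_singleton]
      congr 2
      simp
    have hdvd : P ∣ p.map (algebraMap ℤ (𝓞 k)) := by
      rw [hmap, Ideal.dvd_iff_le, Ideal.span_singleton_le_iff_mem]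
      exact h2P
    obtain ⟨Q, hQ⟩ := hdvd
    have hPQ : ¬ P ∣ Q := by
      rintro ⟨R, rfl⟩
      apply hn2
      have h3 : Ideal.span {(2 : 𝓞 k)} ≤ P ^ 2 := by
        rw [← hmap, hQ, ← mul_assoc, ← sq]
        exact Ideal.dvd_iff_le.mp (Dvd.intro _ rfl)
      exact h3 (Ideal.mem_span_singleton_self _)
    have hcop : IsCoprime P Q := by
      rw [Ideal.isCoprime_iff_sup_eq]
      by_contra hsup
      have h4 : P = P ⊔ Q := hPm.eq_of_le hsup le_sup_left
      exact hPQ (Ideal.dvd_iff_le.mpr (by rw [h4]; exact le_sup_right))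
    exact not_dvd_differentIdeal_of_isCoprime ℤ P Q hcop hQ.symm
  · intro hdvd
    rw [Ideal.dvd_iff_le] at hdvd
    have hsint : IsIntegral ℤ s := by
      refine ⟨X ^ 2 - C (m : ℤ), by monicity!, ?_⟩
      simp [hs]
    let s' : 𝓞 k := ⟨s, hsint⟩
    have hs' : s' ^ 2 = (m : 𝓞 k) := by
      apply RingOfIntegers.ext
      change s ^ 2 = algebraMap (𝓞 k) k (m : 𝓞 k)
      rw [map_natCast, hs]
    have hsQ : ∀ x : ℚ, s ≠ (x : k) := by
      intro x hx
      apply hm
      refine ⟨x, ?_⟩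
      rw [hx] at hs
      rw [← sq]
      exact_mod_cast hs.symm
    have htop : Algebra.adjoin ℚ {algebraMap (𝓞 k) k s'} = ⊤ := adjoin_top hk s hsQ
    have hmem := aeval_derivative_mem_differentIdeal ℤ ℚ k s' htop
    have hdiv : minpoly ℤ s' ∣ (X ^ 2 - C (m : ℤ) : ℤ[X]) := by
      apply minpoly.isIntegrallyClosed_dvd (RingOfIntegers.isIntegral s')
      simp [hs']
    obtain ⟨h, hh⟩ := hdiv
    have hder := congrArg (fun f => aeval s' (derivative f)) hh
    simp only [derivative_sub, derivative_X_pow, derivative_C, sub_zero, derivative_mul, map_add,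
      map_mul, minpoly.aeval, zero_mul, add_zero] at hder
    have h2s : (2 : 𝓞 k) * s' ∈ P := by
      have h3 := P.mul_mem_right (aeval s' h) (hdvd hmem)
      rw [← hder] at h3
      have h4 : aeval s' ((2 : ℕ) : ℤ[X]) = (2 : 𝓞 k) := by rw [map_natCast]; norm_num
      simpa [← h4] using h3
    rcases hP.mem_or_mem h2s with h3 | h3
    · exact two_notMem v hl hl2 hlP' h3
    · have h4 : (m : 𝓞 k) ∈ P := by
        rw [← hs']
        exact P.pow_mem_of_mem h3 2 (by norm_num)
      have hco : IsCoprime (l : ℤ) (m : ℤ) :=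
        Nat.isCoprime_iff_coprime.mpr ((Nat.Prime.coprime_iff_not_dvd hl).mpr hlm)
      obtain ⟨a, b, hab⟩ := hco
      apply hP.ne_top
      rw [Ideal.eq_top_iff_one]
      have h5 : (1 : 𝓞 k) = (a : 𝓞 k) * (l : 𝓞 k) + (b : 𝓞 k) * (m : 𝓞 k) := by
        have := congrArg (Int.cast : ℤ → 𝓞 k) hab
        push_cast at this
        exact this.symm
      rw [h5]
      exact P.add_mem (P.mul_mem_left _ hlP') (P.mul_mem_left _ h4)

end Pool.Agent.K1H82.Sha
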