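import Mathlib
import Pool.Agent.K1H82.Sha.Chain
import Pool.Agent.K1H82.Sha.Disc
import Pool.Agent.TeamU.H

/-! What is used of the fields of the tower. -/

set_option autoImplicit false
set_option linter.all false

open NumberField IsDedekindDomain Module IntermediateField

namespace Pool.Agent.K1H82.Sha

open Pool.Agent.TeamU
open Pool.Agent.H718R3.NT (good_of_equiv invSq_transfer nf_of_fin)

/-- `K` is of degree a power of two, totally real, ramified only at divisors of `m`, and of residue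
degree one above two and the primes of `T`. -/
structure Nice (T : Finset ℕ) (m : ℕ) (K : Type) [Field K] [NumberField K] : Prop where
  pow : ∃ n, deg K = 2 ^ n
  disc : ∀ l : ℕ, l.Prime → (l : ℤ) ∣ discr K → l ∣ m
  split : ∀ (v : HeightOneSpectrum (𝓞 K)) (p : ℕ), (p = 2 ∨ p ∈ T) → (p : 𝓞 K) ∈ v.asIdeal →
    Ideal.absNorm v.asIdeal = p
  real : IsTotallyReal K

/-- the subextensions of good extensions -/
theorem nice_of {T : Finset ℕ} (hT : OddPrimes T) {m : ℕ} (k L L' : Type) [Field k] [NumberField k]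
    [Field L] [NumberField L] [Field L'] [NumberField L'] [Algebra k L] [Algebra L L'] [Algebra k L']
    [IsScalarTower k L L'] (hk : ∀ l : ℕ, l.Prime → (l : ℤ) ∣ discr k → l ∣ m) (hk2 : deg k = 2)
    (h : GoodT T k L') : Nice T m L ∧ (∀ P : HeightOneSpectrum (𝓞 L), Unr k P) ∧
      ∃ n, finrank k L = 2 ^ n := by
  have hfL : FiniteDimensional k L := Module.Finite.of_restrictScalars_finite ℚ k L
  have hfL' : FiniteDimensional L L' := Module.Finite.of_restrictScalars_finite ℚ L L'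
  have hunr : ∀ P : HeightOneSpectrum (𝓞 L), Unr k P := unr_desc_bot k L L' h.good.unr
  have hpow : ∃ n, finrank k L = 2 ^ n := by
    obtain ⟨a, ha⟩ := h.good.pow
    have h1 : finrank k L ∣ 2 ^ a := by
      rw [← ha, ← Module.finrank_mul_finrank k L L']
      exact dvd_mul_right _ _
    obtain ⟨n, -, hn⟩ := (Nat.dvd_prime_pow Nat.prime_two).mp h1
    exact ⟨n, hn⟩
  refine ⟨⟨?_, ?_, ?_, ?_⟩, hunr, hpow⟩
  · obtain ⟨n, hn⟩ := hpow
    refine ⟨n + 1, ?_⟩
    have h1 : deg L = deg k * finrank k L := (Module.finrank_mul_finrank ℚ k L).symm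
    rw [h1, hk2, hn, pow_succ, mul_comm]
  · intro l hl hld
    apply hk l hl
    rw [Int.natCast_dvd] at hld ⊢
    rw [discr_unr k L hunr] at hld
    exact hl.dvd_of_dvd_pow hld
  · intro v p hp hv
    have h2 : TwoSplit L := twoSplit_desc L L' h.good.split2
    have h3 : TSplit T L := tSplit_desc T hT L L' h.ts
    have h4 : Nat.card (𝓞 L ⧸ v.asIdeal) = p := by
      rcases hp with rfl | hp
      · exact (h2 v (by exact_mod_cast hv)).1
      · exact h3 v p hp hv
    rw [Ideal.absNorm_apply, Submodule.cardQuot_apply]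
    exact h4
  · exact totallyReal_desc L L' h.good.real

/-- unramified in the sense of Mathlib -/
theorem isUnramifiedAt_of (k L : Type) [Field k] [NumberField k] [Field L] [NumberField L]
    [Algebra k L] (h : ∀ P : HeightOneSpectrum (𝓞 L), Unr k P) (P : Ideal (𝓞 L)) [P.IsPrime] :
    Algebra.IsUnramifiedAt (𝓞 k) P := by
  by_cases hP : P = ⊥
  · subst hP
    rw [← not_dvd_differentIdeal_iff, Ideal.dvd_iff_le, le_bot_iff]
    exact differentIdeal_ne_bot
  · rw [← not_dvd_differentIdeal_iff, Ideal.dvd_iff_le, differentIdeal_unr k L h, top_le_iff]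
    exact ‹P.IsPrime›.ne_top

theorem fin_of_nf (k L : Type) [Field k] [NumberField k] [Field L] [NumberField L] [Algebra k L] :
    FiniteDimensional k L := Module.Finite.of_restrictScalars_finite ℚ k L

theorem normal_of_cover {M : Type} [Field M] [Algebra ℚ M]
    (h : ∀ x : M, ∃ (A : Type) (_ : Field A) (_ : Algebra ℚ A) (_ : Normal ℚ A) (f : A →+* M) (a : A),
      f a = x) : Normal ℚ M := by
  rw [normal_iff]
  intro x
  obtain ⟨A, i1, i2, i3, f, a, rfl⟩ := h x
  let f' : A →ₐ[ℚ] M := AlgHom.mk f (fun r =>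
    DFunLike.congr_fun (Subsingleton.elim (f.comp (algebraMap ℚ A)) (algebraMap ℚ M)) r)
  have h1 : minpoly ℚ (f a) = minpoly ℚ a := minpoly.algHom_eq f' f'.injective a
  refine ⟨(i3.isIntegral a).map f', ?_⟩
  rw [h1]
  have h2 := (i3.splits a).map f
  rw [Polynomial.map_map] at h2
  rwa [Subsingleton.elim (f.comp (algebraMap ℚ A)) (algebraMap ℚ M)] at h2

/-- **The tower.** -/
theorem exists_tower {F : Type} [Field F] [Algebra ℚ F] [IsAlgClosed F] [Algebra.IsAlgebraic ℚ F]
    {T : Finset ℕ} (hT : OddPrimes T) {n : ℕ} {q : Fin (n + 1) → ℕ}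
    (h : QData T n q) (hn2 : 2 ≤ n) (hn : 4 * ((n + 2) + (6 + 4 * T.card)) ≤ n ^ 2) :
    ∃ (k : IntermediateField ℚ F) (_ : NumberField k) (M : IntermediateField k F),
      deg k = 2 ∧ (∃ s : k, s ^ 2 = ((∏ i, q i : ℕ) : k)) ∧
      Nice T (∏ i, q i) k ∧ ¬ FiniteDimensional k M ∧ Normal ℚ M ∧
      (∀ (L : IntermediateField k F) (_ : NumberField L), L ≤ M →
        Nice T (∏ i, q i) L ∧ (∀ P : HeightOneSpectrum (𝓞 L), Unr k P) ∧ (∃ n, finrank k L = 2 ^ n) ∧
        ∃ (L' : IntermediateField k F) (_ : NumberField L'), L ≤ L' ∧ L' ≤ M ∧ Normal ℚ L') := by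
  obtain ⟨k, hkn, hk2, ⟨s, hs⟩, L, hmono, hL⟩ := exists_chain (F := F) hT h hn2 hn
  have hfin : ∀ j, FiniteDimensional k (L j) := fun j => (hL j).1.fin
  let M : IntermediateField k F := sSup (Set.range L)
  have hLM : ∀ j, L j ≤ M := fun j => le_sSup ⟨j, rfl⟩
  have hdir : DirectedOn (· ≤ ·) (Set.range L) := by
    rintro _ ⟨i, rfl⟩ _ ⟨j, rfl⟩
    exact ⟨L (max i j), ⟨_, rfl⟩, hmono.monotone (le_max_left _ _),
      hmono.monotone (le_max_right _ _)⟩
  have hex : ∀ K' : IntermediateField k F, FiniteDimensional k K' → K' ≤ M → ∃ j, K' ≤ L j := by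
    intro K' _ hK'
    obtain ⟨_, ⟨j, rfl⟩, hj⟩ := Pool.Agent.H718R3.NT.le_of_directed K' (Set.range L) ⟨_, 0, rfl⟩ hdir hK'
    exact ⟨j, hj⟩
  have hdk : ∀ l : ℕ, l.Prime → (l : ℤ) ∣ discr k → l ∣ ∏ i, q i := by
    obtain ⟨i0, h0⟩ := (hL 0).1
    refine disc_quad k (twoSplit_desc k (L 0) h0.good.split2) hk2 s (∏ i, q i) ?_ hs
    rintro ⟨r, hr⟩
    apply h.not_sq Finset.univ Finset.univ_nonempty r
    rw [sq]
    exact hr.symm
  refine ⟨k, hkn, M, hk2, ⟨s, hs⟩, ?_, ?_, ?_, ?_⟩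
  · obtain ⟨i0, h0⟩ := (hL 0).1
    exact (nice_of hT k k (L 0) hdk hk2 h0).1
  · intro hM
    obtain ⟨j, hj⟩ := hex M hM le_rfl
    exact absurd ((hLM (j + 1)).trans hj) (not_le_of_gt (hmono (Nat.lt_succ_self j)))
  · refine normal_of_cover fun x => ?_
    have halg : Algebra.IsAlgebraic k F := Algebra.IsAlgebraic.tower_top (K := ℚ) k
    have h1 : FiniteDimensional k k⟮(x : F)⟯ :=
      IntermediateField.adjoin.finiteDimensional (Algebra.IsIntegral.isIntegral _)
    obtain ⟨j, hj⟩ := hex k⟮(x : F)⟯ h1 (by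
      rw [adjoin_simple_le_iff]
      exact x.2)
    have hxj : (x : F) ∈ L j := hj (mem_adjoin_simple_self k _)
    exact ⟨L j, inferInstance, inferInstance, (hL j).2, (IntermediateField.inclusion (hLM j)).toRingHom,
      ⟨x, hxj⟩, Subtype.ext rfl⟩
  · intro E hE hEM
    have hEf : FiniteDimensional k E := fin_of_nf k E
    obtain ⟨j, hj⟩ := hex E hEf hEM
    obtain ⟨i0, h0⟩ := (hL j).1
    let _ : Algebra E (L j) := (IntermediateField.inclusion hj).toRingHom.toAlgebra
    have : IsScalarTower k E (L j) := IsScalarTower.of_algebraMap_eq fun x => rfl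
    obtain ⟨h1, h2, h3⟩ := nice_of hT k E (L j) hdk hk2 h0
    exact ⟨h1, h2, h3, L j, i0, hj, hLM j, (hL j).2⟩

end Pool.Agent.K1H82.Sha
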