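import Mathlib
import Pool.Agent.K1H82.Sha.Defs
import Pool.Agent.W401.Cheb.Defs

/-! Primes `q ≡ 1 mod 8`, squares modulo all `p ∈ T`, modulo which a given cubic polynomial has no
root. -/

set_option autoImplicit false
set_option linter.all false

open NumberField Polynomial

namespace Pool.Agent.K1H82.Sha

/-- the cubic -/
noncomputable def fZ (b c d : ℤ) : ℤ[X] := X ^ 3 + C b * X ^ 2 + C c * X + C d

theorem fZ_monic (b c d : ℤ) : (fZ b c d).Monic := by
  unfold fZ
  monicity!

theorem fZ_natDegree (b c d : ℤ) : (fZ b c d).natDegree = 3 := by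
  unfold fZ
  compute_degree!

theorem fZ_aeval {R : Type} [CommRing R] (b c d : ℤ) (x : R) :
    aeval x (fZ b c d) = x ^ 3 + (b : R) * x ^ 2 + (c : R) * x + (d : R) := by
  simp [fZ]

/-- the polynomial whose splitting field is used -/
noncomputable def bigP (T : Finset ℕ) (b c d : ℤ) : ℚ[X] :=
  (X ^ 4 + 1) * (∏ p ∈ T, (X ^ 2 - C (p : ℚ))) * (fZ b c d).map (Int.castRingHom ℚ)

theorem bigP_ne {T : Finset ℕ} {b c d : ℤ} : bigP T b c d ≠ 0 := by
  unfold bigP
  refine mul_ne_zero (mul_ne_zero ?_ ?_) ?_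
  · exact (show (X ^ 4 + 1 : ℚ[X]).Monic by monicity!).ne_zero
  · rw [Finset.prod_ne_zero_iff]
    intro p _
    exact (show (X ^ 2 - C (p : ℚ) : ℚ[X]).Monic by monicity!).ne_zero
  · exact ((fZ_monic b c d).map _).ne_zero

section

variable {N : Type} [Field N] [NumberField N]

theorem root_cases {T : Finset ℕ} {b c d : ℤ} {x : N} (hx : aeval x (bigP T b c d) = 0) :
    x ^ 4 = -1 ∨ (∃ p ∈ T, x ^ 2 = (p : N)) ∨
      x ^ 3 + (b : N) * x ^ 2 + (c : N) * x + (d : N) = 0 := by
  unfold bigP at hx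
  rw [map_mul, map_mul, mul_eq_zero, mul_eq_zero] at hx
  rcases hx with (hx | hx) | hx
  · left
    simp only [map_add, map_pow, aeval_X, map_one] at hx
    linear_combination hx
  · right; left
    rw [map_prod, Finset.prod_eq_zero_iff] at hx
    obtain ⟨p, hp, hx⟩ := hx
    refine ⟨p, hp, ?_⟩
    simp only [map_sub, map_pow, aeval_X, aeval_C] at hx
    rw [eq_ratCast] at hx
    push_cast at hx
    linear_combination hx
  · right; right
    have h1 : aeval x ((fZ b c d).map (Int.castRingHom ℚ)) = aeval x (fZ b c d) := by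
      have := aeval_map_algebraMap (R := ℤ) ℚ x (fZ b c d)
      rw [← this]
      rfl
    rw [h1, fZ_aeval] at hx
    exact hx

variable [IsGalois ℚ N]

/-- an automorphism without fixed roots -/
theorem exists_g0 {T : Finset ℕ} (hT : ∀ p ∈ T, p ≠ 0) {b c d : ℤ}
    (hgen : Algebra.adjoin ℚ ((bigP T b c d).rootSet N) = ⊤)
    (α : N) (hα : α ^ 3 + (b : N) * α ^ 2 + (c : N) * α + (d : N) = 0)
    (hf : ∀ x : ℚ, x ^ 3 + (b : ℚ) * x ^ 2 + (c : ℚ) * x + (d : ℚ) ≠ 0) :
    ∃ g : N ≃ₐ[ℚ] N, (∀ x : N, x ^ 4 = -1 → g x = x) ∧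
      (∀ p ∈ T, ∀ x : N, x ^ 2 = (p : N) → g x = x) ∧
      ∀ x : N, x ^ 3 + (b : N) * x ^ 2 + (c : N) * x + (d : N) = 0 → g x ≠ x := by
  classical
  set f : ℚ[X] := (fZ b c d).map (Int.castRingHom ℚ) with hfdef
  have hmon : f.Monic := (fZ_monic b c d).map _
  have hdeg : f.natDegree = 3 := by
    rw [hfdef, (fZ_monic b c d).natDegree_map, fZ_natDegree]
  have hev : ∀ x : ℚ, f.eval x = x ^ 3 + (b : ℚ) * x ^ 2 + (c : ℚ) * x + (d : ℚ) := by
    intro x
    simp [hfdef, fZ]
  have hirr : Irreducible f := by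
    apply irreducible_of_degree_le_three_of_not_isRoot
    · rw [Finset.mem_Icc, hdeg]; omega
    · intro x hx
      exact hf x (by rw [← hev]; exact hx)
  have haev : ∀ x : N, aeval x f = x ^ 3 + (b : N) * x ^ 2 + (c : N) * x + (d : N) := by
    intro x
    have h1 : aeval x f = aeval x (fZ b c d) := by
      have := aeval_map_algebraMap (R := ℤ) ℚ x (fZ b c d)
      rw [← this]
      rfl
    rw [h1, fZ_aeval]
  have hmin : f = minpoly ℚ α :=
    minpoly.eq_of_irreducible_of_monic hirr (by rw [haev, hα]) hmon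
  have h3 : Module.finrank ℚ (IntermediateField.adjoin ℚ {α}) = 3 := by
    rw [IntermediateField.adjoin.finrank (Algebra.IsIntegral.isIntegral α), ← hmin, hdeg]
  have h4 : 3 ∣ Nat.card (N ≃ₐ[ℚ] N) := by
    rw [IsGalois.card_aut_eq_finrank]
    have := Module.finrank_mul_finrank ℚ (IntermediateField.adjoin ℚ {α}) N
    rw [h3] at this
    exact ⟨_, this.symm⟩
  have : Fact (Nat.Prime 3) := ⟨Nat.prime_three⟩
  obtain ⟨g, hg⟩ := exists_prime_orderOf_dvd_card' 3 h4
  have hg3 : ∀ x : N, g (g (g x)) = x := by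
    intro x
    have h5 : g ^ 3 = 1 := by rw [← hg]; exact pow_orderOf_eq_one g
    have h6 := DFunLike.congr_fun h5 x
    rw [pow_succ, pow_succ, pow_one] at h6
    exact h6
  have k1 : ∀ x : N, x ^ 4 = -1 → g x = x := by
    intro x hx
    have hx8 : x ^ 8 = 1 := by
      have : x ^ 8 = (x ^ 4) ^ 2 := by ring
      rw [this, hx]; ring
    have ho : orderOf x = 2 ^ 3 := by
      apply orderOf_eq_prime_pow
      · rw [show 2 ^ 2 = 4 by norm_num, hx]
        intro h
        have : (2 : N) = 0 := by linear_combination -h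
        exact two_ne_zero this
      · rw [show 2 ^ (2 + 1) = 8 by norm_num, hx8]
    have hprim : IsPrimitiveRoot x 8 := by
      have := IsPrimitiveRoot.orderOf x
      rwa [ho] at this
    have : NeZero 8 := ⟨by norm_num⟩
    obtain ⟨i, hi, hix⟩ := hprim.eq_pow_of_pow_eq_one (ξ := g x) (by rw [← map_pow, hx8, map_one])
    have h7 : x ^ (i * i * i) = x ^ 1 := by
      rw [pow_one]
      conv_rhs => rw [← hg3 x]
      rw [← hix, map_pow, ← hix, map_pow, map_pow, ← hix, ← pow_mul, ← pow_mul, mul_assoc]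
    have h8 : i = 1 := by
      have h9 : (i * i * i) % 8 = 1 := by
        apply hprim.pow_inj (Nat.mod_lt _ (by norm_num)) (by norm_num)
        rw [← h7]
        have := pow_mod_orderOf x (i * i * i)
        rw [ho] at this
        exact this
      have : ∀ j < 8, (j * j * j) % 8 = 1 → j = 1 := by decide
      exact this i hi h9
    rw [← hix, h8, pow_one]
  have k2 : ∀ p ∈ T, ∀ x : N, x ^ 2 = (p : N) → g x = x := by
    intro p hp x hx
    have h5 : (g x) ^ 2 = x ^ 2 := by rw [← map_pow, hx, map_natCast]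
    rcases sq_eq_sq_iff_eq_or_eq_neg.mp h5 with h6 | h6
    · exact h6
    · exfalso
      have h7 := hg3 x
      rw [h6, map_neg, h6, neg_neg, h6] at h7
      have hx0 : x = 0 := by
        have : (2 : N) * x = 0 := by linear_combination -h7
        rcases mul_eq_zero.mp this with h8 | h8
        · exact absurd h8 two_ne_zero
        · exact h8
      rw [hx0] at hx
      apply hT p hp
      have : ((p : ℕ) : N) = 0 := by rw [← hx]; ring
      exact_mod_cast this
  refine ⟨g, k1, k2, ?_⟩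
  intro a ha hga
  -- all the roots are fixed
  have hroot : ∀ x : N, x ^ 3 + (b : N) * x ^ 2 + (c : N) * x + (d : N) = 0 →
      (g x) ^ 3 + (b : N) * (g x) ^ 2 + (c : N) * (g x) + (d : N) = 0 := by
    intro x hx
    have := congrArg g hx
    simpa using this
  have hmem : ∀ x : N, x ^ 3 + (b : N) * x ^ 2 + (c : N) * x + (d : N) = 0 →
      x ∈ (f.map (algebraMap ℚ N)).roots.toFinset := by
    intro x hx
    rw [Multiset.mem_toFinset, mem_roots (hmon.map _).ne_zero, IsRoot.def, eval_map_algebraMap,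
      haev]
    exact hx
  have k3 : ∀ x : N, x ^ 3 + (b : N) * x ^ 2 + (c : N) * x + (d : N) = 0 → g x = x := by
    intro x hx
    by_contra hne
    have e1 : g (g x) ≠ g x := fun h => hne (g.injective h)
    have e2 : g (g x) ≠ x := by
      intro h
      have h5 := hg3 x
      rw [h] at h5
      exact hne h5
    have e3 : x ≠ a := by
      rintro rfl
      exact hne hga
    have e4 : g x ≠ a := by
      intro h
      apply e3
      apply g.injective
      rw [h, hga]
    have e5 : g (g x) ≠ a := by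
      intro h
      apply e4
      apply g.injective
      rw [h, hga]
    have hsub : ({x, g x, g (g x), a} : Finset N) ⊆ (f.map (algebraMap ℚ N)).roots.toFinset := by
      intro y hy
      simp only [Finset.mem_insert, Finset.mem_singleton] at hy
      rcases hy with rfl | rfl | rfl | rfl
      · exact hmem _ hx
      · exact hmem _ (hroot _ hx)
      · exact hmem _ (hroot _ (hroot _ hx))
      · exact hmem _ ha
    have hc4 : ({x, g x, g (g x), a} : Finset N).card = 4 := by
      rw [Finset.card_insert_of_notMem, Finset.card_insert_of_notMem, Finset.card_insert_of_notMem,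
        Finset.card_singleton]
      · simpa using e5
      · simp only [Finset.mem_insert, Finset.mem_singleton, not_or]
        exact ⟨e1.symm, e4⟩
      · simp only [Finset.mem_insert, Finset.mem_singleton, not_or]
        exact ⟨fun h => hne h.symm, e2.symm, e3⟩
    have h5 := Finset.card_le_card hsub
    have h6 := (f.map (algebraMap ℚ N)).roots.toFinset_card_le
    have h7 := card_roots' (f.map (algebraMap ℚ N))
    rw [hmon.natDegree_map, hdeg] at h7
    omega
  have hg1 : g = 1 := by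
    have h5 : (g : N →ₐ[ℚ] N) = AlgHom.id ℚ N := by
      apply AlgHom.ext_of_adjoin_eq_top hgen
      intro y hy
      rw [mem_rootSet] at hy
      rcases root_cases hy.2 with h6 | ⟨p, hp, h6⟩ | h6
      · exact k1 y h6
      · exact k2 p hp y h6
      · exact k3 y h6
    ext x
    exact DFunLike.congr_fun h5 x
  rw [hg1, orderOf_one] at hg
  norm_num at hg

end

section frob

variable {N : Type} [Field N] [NumberField N]

open Pool.Agent.W401.Cheb (HasFrob)

theorem frob_fix {q : ℕ} [Fact q.Prime] {g : Gal(N/ℚ)}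
    {φ : 𝓞 N →+* AlgebraicClosure (ZMod q)} (hφ : HasFrob q φ g) (x : 𝓞 N) (hx : g (x : N) = x) :
    φ x ^ q = φ x := by
  rw [← hφ x]
  congr 1
  apply RingOfIntegers.ext
  exact hx

theorem absNorm_bound {q : ℕ} [Fact q.Prime] (φ : 𝓞 N →+* AlgebraicClosure (ZMod q)) (z : 𝓞 N)
    (hz : z ≠ 0) (h : φ z = 0) : q ≤ Ideal.absNorm (Ideal.span {z}) := by
  have h1 : ((Ideal.absNorm (Ideal.span {z}) : ℕ) : 𝓞 N) ∈ Ideal.span {z} :=
    Ideal.absNorm_mem _
  obtain ⟨w, hw⟩ := Ideal.mem_span_singleton'.mp h1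
  have h2 : ((Ideal.absNorm (Ideal.span {z}) : ℕ) : AlgebraicClosure (ZMod q)) = 0 := by
    rw [← map_natCast φ, ← hw, map_mul, h, mul_zero]
  have : CharP (AlgebraicClosure (ZMod q)) q := inferInstance
  rw [CharP.cast_eq_zero_iff (AlgebraicClosure (ZMod q)) q] at h2
  refine Nat.le_of_dvd (Nat.pos_of_ne_zero ?_) h2
  rw [Ne, Ideal.absNorm_eq_zero_iff, Ideal.span_singleton_eq_bot]
  exact hz

/-- the reduction at a prime with the Frobenius element `g` -/
theorem frob_main {T : Finset ℕ} (hT : OddPrimes T) {b c d : ℤ} {q : ℕ} [Fact q.Prime] (hq2 : q ≠ 2)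
    (hqT : ∀ p ∈ T, p < q) {g : Gal(N/ℚ)} {φ : 𝓞 N →+* AlgebraicClosure (ZMod q)}
    (hφ : HasFrob q φ g)
    (ζ : 𝓞 N) (hζ : ζ ^ 4 = -1) (gζ : g (ζ : N) = ζ)
    (r : ℕ → 𝓞 N) (hr : ∀ p ∈ T, r p ^ 2 = (p : 𝓞 N)) (gr : ∀ p ∈ T, g (r p : N) = r p)
    (S : Multiset (𝓞 N)) (hS : ∀ n : ℤ, ((n ^ 3 + b * n ^ 2 + c * n + d : ℤ) : 𝓞 N) =
      (S.map fun a => (n : 𝓞 N) - a).prod)
    (hSg : ∀ a ∈ S, φ (g • a) ≠ φ a) :
    q % 8 = 1 ∧ (∀ p ∈ T, ¬ p ∣ q ∧ ∃ a : ℕ, (p : ℤ) ∣ (q : ℤ) - (a : ℤ) ^ 2) ∧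
      ∀ n : ℤ, ¬ (q : ℤ) ∣ n ^ 3 + b * n ^ 2 + c * n + d := by
  have hqp : q.Prime := Fact.out
  have hchar : CharP (AlgebraicClosure (ZMod q)) q := inferInstance
  have h2 : (2 : AlgebraicClosure (ZMod q)) ≠ 0 := by
    intro h
    have h1 : ((2 : ℕ) : AlgebraicClosure (ZMod q)) = 0 := by exact_mod_cast h
    rw [CharP.cast_eq_zero_iff (AlgebraicClosure (ZMod q)) q,
      Nat.prime_dvd_prime_iff_eq hqp Nat.prime_two] at h1
    exact hq2 h1
  have hpow : ∀ x : 𝓞 N, g (x : N) = x → φ x ≠ 0 → φ x ^ (q - 1) = 1 := by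
    intro x hx hx0
    have h1 := frob_fix hφ x hx
    have h3 : φ x ^ (q - 1) * φ x = 1 * φ x := by
      rw [← pow_succ, Nat.sub_add_cancel hqp.one_le, h1, one_mul]
    exact mul_right_cancel₀ hx0 h3
  have hq8 : q % 8 = 1 := by
    have e1 : (φ ζ) ^ 4 = -1 := by rw [← map_pow, hζ, map_neg, map_one]
    have e2 : φ ζ ≠ 0 := by
      intro h
      rw [h] at e1
      norm_num at e1
    have ho : orderOf (φ ζ) = 2 ^ 3 := by
      apply orderOf_eq_prime_pow
      · rw [show 2 ^ 2 = 4 by norm_num, e1]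
        intro h
        apply h2
        linear_combination -h
      · rw [show 2 ^ (2 + 1) = 8 by norm_num]
        have : (φ ζ) ^ 8 = ((φ ζ) ^ 4) ^ 2 := by ring
        rw [this, e1]; ring
    have h3 := orderOf_dvd_of_pow_eq_one (hpow ζ gζ e2)
    rw [ho] at h3
    have := hqp.one_lt
    omega
  refine ⟨hq8, ?_, ?_⟩
  · intro p hp
    have hpp := (hT p hp).1
    have : Fact p.Prime := ⟨hpp⟩
    have hpq : p ≠ q := (hqT p hp).ne
    refine ⟨fun h => hpq ((Nat.prime_dvd_prime_iff_eq hpp hqp).mp h), ?_⟩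
    have hp0 : ((p : ℕ) : ZMod q) ≠ 0 := by
      rw [Ne, ZMod.natCast_eq_zero_iff]
      intro h
      exact hpq ((Nat.prime_dvd_prime_iff_eq hqp hpp).mp h).symm
    have e0 : (φ (r p)) ^ 2 = ((p : ℕ) : AlgebraicClosure (ZMod q)) := by
      rw [← map_pow, hr p hp, map_natCast]
    have e1 : algebraMap (ZMod q) (AlgebraicClosure (ZMod q)) ((p : ℕ) : ZMod q) =
        ((p : ℕ) : AlgebraicClosure (ZMod q)) := map_natCast _ _
    have e2 : φ (r p) ≠ 0 := by
      intro h
      rw [h] at e0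
      apply hp0
      apply (algebraMap (ZMod q) (AlgebraicClosure (ZMod q))).injective
      rw [e1, ← e0, map_zero]
      ring
    have e3 : (((p : ℕ) : ZMod q)) ^ (q / 2) = 1 := by
      apply (algebraMap (ZMod q) (AlgebraicClosure (ZMod q))).injective
      rw [map_pow, e1, ← e0, ← pow_mul, map_one, ← hpow (r p) (gr p hp) e2]
      congr 1
      omega
    have e4 : IsSquare ((p : ℕ) : ZMod q) := (ZMod.euler_criterion q hp0).mpr e3
    have e5 : IsSquare ((q : ℕ) : ZMod p) := by
      have := ZMod.exists_sq_eq_prime_iff_of_mod_four_eq_one (p := q) (q := p) (by omega)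
        (hT p hp).2
      exact this.mp e4
    obtain ⟨y, hy⟩ := e5
    refine ⟨y.val, ?_⟩
    rw [← ZMod.intCast_zmod_eq_zero_iff_dvd _ p]
    push_cast
    rw [ZMod.natCast_zmod_val, hy]
    ring
  · intro n hn
    have h1 : φ ((n ^ 3 + b * n ^ 2 + c * n + d : ℤ) : 𝓞 N) = 0 := by
      rw [map_intCast]
      exact (CharP.intCast_eq_zero_iff (AlgebraicClosure (ZMod q)) q _).mpr hn
    rw [hS n, map_multiset_prod, Multiset.prod_eq_zero_iff, Multiset.map_map,
      Multiset.mem_map] at h1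
    obtain ⟨a, ha, h3⟩ := h1
    have h4 : φ a = (n : AlgebraicClosure (ZMod q)) := by
      simp only [Function.comp_apply, map_sub, map_intCast] at h3
      exact (sub_eq_zero.mp h3).symm
    apply hSg a ha
    rw [hφ a, h4]
    have h5 : ((n : ℤ) : ZMod q) ^ q = n := ZMod.pow_card _
    have h6 := congrArg (algebraMap (ZMod q) (AlgebraicClosure (ZMod q))) h5
    rw [map_pow, map_intCast] at h6
    exact h6

end frob

end Pool.Agent.K1H82.Sha
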