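import Mathlib
import Pool.Agent.K1H82.Sha.Primes

/-! Infinitely many primes `q ≡ 1 mod 8`, squares modulo all `p ∈ T`, modulo which a given cubic
polynomial has no root. -/

set_option autoImplicit false
set_option linter.all false

open NumberField Polynomial

namespace Pool.Agent.K1H82.Sha

open Pool.Agent.W401.Cheb (HasFrob xp)

/-- the primes used -/
def GoodPrimes (T : Finset ℕ) (b c d : ℤ) : Set ℕ :=
  {q | q.Prime ∧ q % 8 = 1 ∧ (∀ p ∈ T, ¬ p ∣ q ∧ ∃ a : ℕ, (p : ℤ) ∣ (q : ℤ) - (a : ℤ) ^ 2) ∧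
    ∀ n : ℤ, ¬ (q : ℤ) ∣ n ^ 3 + b * n ^ 2 + c * n + d}

theorem primes_core (T : Finset ℕ) (hT : OddPrimes T) (b c d : ℤ)
    (hf : ∀ x : ℚ, x ^ 3 + (b : ℚ) * x ^ 2 + (c : ℚ) * x + (d : ℚ) ≠ 0)
    (N : Type) [Field N] [NumberField N] [hsp : IsSplittingField ℚ N (bigP T b c d)]
    (hcheb : ∀ (L : Type) [Field L] [NumberField L] [IsGalois ℚ L] (g : Gal(L/ℚ)),
      {p : ℕ | p.Prime ∧ xp L g p ≠ 0}.Infinite) :
    (GoodPrimes T b c d).Infinite := by
  classical
  have hnorm : Normal ℚ N := Normal.of_isSplittingField (bigP T b c d)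
  have hgal : IsGalois ℚ N := ⟨⟩
  have hspl := hsp.splits'
  have hP0 : (bigP T b c d).map (algebraMap ℚ N) ≠ 0 :=
    (Polynomial.map_ne_zero_iff (algebraMap ℚ N).injective).mpr bigP_ne
  have hint : ∀ (g : ℤ[X]) (x : N), g.Monic → aeval x g = 0 → IsIntegral ℤ x := fun g x hg hx =>
    ⟨g, hg, hx⟩
  -- the fourth root of -1
  obtain ⟨z, hz⟩ : ∃ z : N, z ^ 4 = -1 := by
    have h1 : ((X ^ 4 + 1 : ℚ[X]).map (algebraMap ℚ N)).Splits := by
      refine hspl.of_dvd hP0 (Polynomial.map_dvd _ ?_)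
      unfold bigP
      exact (dvd_mul_right _ _).mul_right _
    obtain ⟨z, hz⟩ := Splits.exists_eval_eq_zero h1 (by
      rw [degree_map, show (X ^ 4 + 1 : ℚ[X]) = X ^ 4 + C 1 by simp,
        degree_X_pow_add_C (by norm_num)]
      norm_num)
    refine ⟨z, ?_⟩
    rw [eval_map_algebraMap] at hz
    simp only [map_add, map_pow, aeval_X, map_one] at hz
    linear_combination hz
  have hzi : IsIntegral ℤ z := by
    refine hint (X ^ 4 + 1) z (by monicity!) ?_
    simp [hz]
  -- the square roots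
  have hroot : ∀ p : ℕ, ∃ x : 𝓞 N, p ∈ T → x ^ 2 = (p : 𝓞 N) := by
    intro p
    by_cases hp : p ∈ T
    · have h1 : ((X ^ 2 - C (p : ℚ) : ℚ[X]).map (algebraMap ℚ N)).Splits := by
        refine hspl.of_dvd hP0 (Polynomial.map_dvd _ ?_)
        have h2 : (X ^ 2 - C (p : ℚ) : ℚ[X]) ∣ ∏ p ∈ T, (X ^ 2 - C (p : ℚ)) :=
          Finset.dvd_prod_of_mem (fun p : ℕ => (X ^ 2 - C (p : ℚ) : ℚ[X])) hp
        unfold bigP
        exact (h2.mul_left _).mul_right _
      obtain ⟨y, hy⟩ := Splits.exists_eval_eq_zero h1 (by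
        rw [degree_map, degree_X_pow_sub_C (by norm_num)]
        norm_num)
      rw [eval_map_algebraMap] at hy
      simp only [map_sub, map_pow, aeval_X, aeval_C, map_natCast] at hy
      have hyi : IsIntegral ℤ y := by
        refine hint (X ^ 2 - C (p : ℤ)) y (by monicity!) ?_
        simp only [map_sub, map_pow, aeval_X, aeval_C, map_natCast]
        exact hy
      refine ⟨⟨y, hyi⟩, fun _ => ?_⟩
      apply RingOfIntegers.ext
      change y ^ 2 = ((p : 𝓞 N) : N)
      rw [show ((p : 𝓞 N) : N) = (p : N) from map_natCast (algebraMap (𝓞 N) N) p]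
      linear_combination hy
    · exact ⟨0, fun h => absurd h hp⟩
  choose r hr using hroot
  -- the roots of the cubic
  set f : ℚ[X] := (fZ b c d).map (Int.castRingHom ℚ) with hfdef
  have hmon : f.Monic := (fZ_monic b c d).map _
  have hfN : f.map (algebraMap ℚ N) = (fZ b c d).map (algebraMap ℤ N) := by
    rw [hfdef, Polynomial.map_map]
    congr 1
    exact RingHom.ext_int _ _
  have hfs : (f.map (algebraMap ℚ N)).Splits := by
    refine hspl.of_dvd hP0 (Polynomial.map_dvd _ ?_)
    unfold bigP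
    exact Dvd.intro_left _ rfl
  set R : Multiset N := (f.map (algebraMap ℚ N)).roots with hR
  have hprod : f.map (algebraMap ℚ N) = (R.map fun a => X - C a).prod :=
    hfs.eq_prod_roots_of_monic (hmon.map _)
  have hRroot : ∀ x ∈ R, x ^ 3 + (b : N) * x ^ 2 + (c : N) * x + (d : N) = 0 := by
    intro x hx
    rw [hR, mem_roots (hmon.map _).ne_zero, IsRoot.def, hfN, eval_map_algebraMap, fZ_aeval] at hx
    exact hx
  have hRint : ∀ x ∈ R, IsIntegral ℤ x := by
    intro x hx
    refine hint (fZ b c d) x (fZ_monic b c d) ?_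
    rw [fZ_aeval, hRroot x hx]
  obtain ⟨α, hα⟩ := Splits.exists_eval_eq_zero hfs (by
    rw [degree_map, degree_eq_natDegree hmon.ne_zero, hfdef, (fZ_monic b c d).natDegree_map,
      fZ_natDegree]
    norm_num)
  have hα' : α ^ 3 + (b : N) * α ^ 2 + (c : N) * α + (d : N) = 0 := by
    rw [hfN, eval_map_algebraMap, fZ_aeval] at hα
    exact hα
  obtain ⟨g, hg1, hg2, hg3⟩ := exists_g0 (fun p hp => (hT p hp).1.ne_zero) hsp.adjoin_rootSet'
    α hα' hf
  let lift : N → 𝓞 N := fun x => if h : IsIntegral ℤ x then ⟨x, h⟩ else 0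
  have hlift : ∀ x : N, IsIntegral ℤ x → ((lift x : 𝓞 N) : N) = x := by
    intro x hx
    simp only [lift, dif_pos hx]
    rfl
  let S : Multiset (𝓞 N) := R.map lift
  have hS : ∀ n : ℤ, ((n ^ 3 + b * n ^ 2 + c * n + d : ℤ) : 𝓞 N) =
      (S.map fun a => (n : 𝓞 N) - a).prod := by
    intro n
    apply RingOfIntegers.coe_injective
    have h1 := congrArg (eval (n : N)) hprod
    rw [hfN, eval_map_algebraMap, fZ_aeval, eval_multiset_prod, Multiset.map_map] at h1
    have h2 : algebraMap (𝓞 N) N (S.map fun a => (n : 𝓞 N) - a).prod =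
        (R.map fun x => (n : N) - x).prod := by
      rw [map_multiset_prod, Multiset.map_map, Multiset.map_map]
      congr 1
      apply Multiset.map_congr rfl
      intro x hx
      simp only [Function.comp_apply, map_sub, map_intCast]
      rw [show algebraMap (𝓞 N) N (lift x) = x from hlift x (hRint x hx)]
    change algebraMap (𝓞 N) N _ = algebraMap (𝓞 N) N _
    rw [h2, map_intCast]
    push_cast
    rw [h1]
    congr 1
    apply Multiset.map_congr rfl
    intro x hx
    simp
  let B : ℕ := (S.map fun a => Ideal.absNorm (Ideal.span {g • a - a})).sum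
  have hB : ∀ a ∈ S, Ideal.absNorm (Ideal.span {g • a - a}) ≤ B := fun a ha =>
    Multiset.single_le_sum (fun x _ => Nat.zero_le x) _
      (Multiset.mem_map_of_mem (fun a => Ideal.absNorm (Ideal.span {g • a - a})) ha)
  have hinf := (hcheb N g).diff (Set.finite_Iic (B + 2 + T.sum id))
  refine hinf.mono ?_
  rintro q ⟨⟨hqp, hx⟩, hq⟩
  rw [Set.mem_Iic, not_le] at hq
  have : Fact q.Prime := ⟨hqp⟩
  unfold xp at hx
  rw [dif_pos hqp] at hx
  obtain ⟨⟨φ, hφ⟩⟩ := (Nat.card_ne_zero.mp hx).1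
  refine ⟨hqp, frob_main hT (by omega) ?_ hφ ⟨z, hzi⟩ ?_ (hg1 z hz) r (fun p hp => hr p hp) ?_ S hS ?_⟩
  · intro p hp
    have : p ≤ T.sum id := Finset.single_le_sum (f := id) (fun _ _ => Nat.zero_le _) hp
    omega
  · apply RingOfIntegers.ext
    change z ^ 4 = -1
    exact hz
  · intro p hp
    apply hg2 p hp
    have h1 := congrArg (algebraMap (𝓞 N) N) (hr p hp)
    rw [map_pow, map_natCast] at h1
    exact h1
  · intro a ha heq
    have ha' := ha
    rw [Multiset.mem_map] at ha'
    obtain ⟨x, hx, rfl⟩ := ha'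
    have hne : g • lift x - lift x ≠ 0 := by
      rw [Ne, sub_eq_zero]
      intro h
      apply hg3 x (hRroot x hx)
      have h1 := congrArg (algebraMap (𝓞 N) N) h
      have h2 : algebraMap (𝓞 N) N (g • lift x) = g (algebraMap (𝓞 N) N (lift x)) := rfl
      rw [h2, show algebraMap (𝓞 N) N (lift x) = x from hlift x (hRint x hx)] at h1
      exact h1
    have h3 := absNorm_bound φ _ hne (by rw [map_sub, heq, sub_self])
    have h4 := hB (lift x) ha
    omega

theorem primes_infinite (T : Finset ℕ) (hT : OddPrimes T) (b c d : ℤ)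
    (hf : ∀ x : ℚ, x ^ 3 + (b : ℚ) * x ^ 2 + (c : ℚ) * x + (d : ℚ) ≠ 0)
    (hcheb : ∀ (L : Type) [Field L] [NumberField L] [IsGalois ℚ L] (g : Gal(L/ℚ)),
      {p : ℕ | p.Prime ∧ xp L g p ≠ 0}.Infinite) :
    (GoodPrimes T b c d).Infinite := by
  have key : ∀ (N : Type) (iF : Field N) (iA : Algebra ℚ N) (i1 : FiniteDimensional ℚ N)
      (i2 : IsSplittingField ℚ N (bigP T b c d)),
      (GoodPrimes T b c d).Infinite := by
    intro N iF iA i1 i2
    have hc : CharZero N := charZero_of_injective_algebraMap (algebraMap ℚ N).injective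
    obtain rfl : iA = DivisionRing.toRatAlgebra := Subsingleton.elim _ _
    have : NumberField N := ⟨⟩
    exact primes_core T hT b c d hf N hcheb
  exact key (bigP T b c d).SplittingField inferInstance inferInstance inferInstance
    (IsSplittingField.splittingField _)

end Pool.Agent.K1H82.Sha
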