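import Mathlib
import Pool.Agent.K1H82.Sha.Nice
import Pool.Agent.K1H82.Sha.Primes2

/-! The tower for a given cubic polynomial. -/

set_option autoImplicit false
set_option linter.all false

open NumberField IsDedekindDomain Module IntermediateField

namespace Pool.Agent.K1H82.Sha

open Pool.Agent.TeamU
open Pool.Agent.W401.Cheb (xp)

/-- the odd prime divisors -/
def oddPr (D : ℤ) : Finset ℕ := D.natAbs.primeFactors.filter (· ≠ 2)

theorem oddPr_odd (D : ℤ) : OddPrimes (oddPr D) := by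
  intro p hp
  unfold oddPr at hp
  rw [Finset.mem_filter] at hp
  exact ⟨Nat.prime_of_mem_primeFactors hp.1, hp.2⟩

theorem mem_oddPr {D : ℤ} (hD : D ≠ 0) {p : ℕ} (hp : p.Prime) (h : (p : ℤ) ∣ 2 * D) :
    p = 2 ∨ p ∈ oddPr D := by
  by_cases h2 : p = 2
  · exact Or.inl h2
  · right
    unfold oddPr
    rw [Finset.mem_filter, Nat.mem_primeFactors]
    refine ⟨⟨hp, ?_, by simpa using hD⟩, h2⟩
    rcases (Nat.prime_iff_prime_int.1 hp).dvd_or_dvd h with h | h
    · exfalso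
      apply h2
      have : p ∣ 2 := by exact_mod_cast h
      exact (Nat.prime_dvd_prime_iff_eq hp Nat.prime_two).1 this
    · exact Int.natCast_dvd.1 h

theorem exists_q {T : Finset ℕ} {b c d : ℤ} (h : (GoodPrimes T b c d).Infinite) (N n : ℕ) :
    ∃ q : Fin (n + 1) → ℕ, QData T n q ∧ ∀ i, N < q i ∧
      ∀ x : ℤ, ¬ (q i : ℤ) ∣ x ^ 3 + b * x ^ 2 + c * x + d := by
  have h1 : (GoodPrimes T b c d \ Set.Iic N).Infinite := h.diff (Set.finite_Iic N)
  let e := h1.natEmbedding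
  refine ⟨fun i => (e i : ℕ), ⟨?_, ?_, ?_, ?_, ?_⟩, ?_⟩
  · intro i
    exact (e i).2.1.1
  · intro i j hij
    exact Fin.ext (e.injective (Subtype.ext hij))
  · intro i
    exact (e i).2.1.2.1
  · intro i p hp
    exact ((e i).2.1.2.2.1 p hp).1
  · intro i p hp
    exact ((e i).2.1.2.2.1 p hp).2
  · intro i
    refine ⟨?_, (e i).2.1.2.2.2⟩
    have := (e i).2.2
    rw [Set.mem_Iic, not_le] at this
    exact this

/-- **The tower for a cubic polynomial.** -/
theorem exists_tower_cubic (F : Type) [Field F] [Algebra ℚ F] [IsAlgClosed F]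
    [Algebra.IsAlgebraic ℚ F] {D : ℤ} (hD : D ≠ 0) (b c d : ℤ)
    (hf : ∀ x : ℚ, x ^ 3 + (b : ℚ) * x ^ 2 + (c : ℚ) * x + (d : ℚ) ≠ 0)
    (hcheb : ∀ (L : Type) [Field L] [NumberField L] [IsGalois ℚ L] (g : Gal(L/ℚ)),
      {p : ℕ | p.Prime ∧ xp L g p ≠ 0}.Infinite) (N : ℕ) :
    ∃ m : ℕ, Squarefree m ∧ (∀ l : ℕ, l.Prime → l ∣ m → N < l ∧ ¬ (l : ℤ) ∣ 2 * D ∧
        ∀ x : ℤ, ¬ (l : ℤ) ∣ x ^ 3 + b * x ^ 2 + c * x + d) ∧
      ∃ (k : IntermediateField ℚ F) (_ : NumberField k) (M : IntermediateField k F),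
      deg k = 2 ∧ (∃ s : k, s ^ 2 = (m : k)) ∧
      Nice (oddPr D) m k ∧ ¬ FiniteDimensional k M ∧ Normal ℚ M ∧
      (∀ (L : IntermediateField k F) (_ : NumberField L), L ≤ M →
        Nice (oddPr D) m L ∧ (∀ P : HeightOneSpectrum (𝓞 L), Unr k P) ∧
          (∃ n, finrank k L = 2 ^ n) ∧
        ∃ (L' : IntermediateField k F) (_ : NumberField L'), L ≤ L' ∧ L' ≤ M ∧ Normal ℚ L') := by
  classical
  have hT := oddPr_odd D
  have hinf := primes_infinite (oddPr D) hT b c d hf hcheb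
  obtain ⟨q, hq, hq'⟩ := exists_q hinf (N + (2 * D).natAbs) (4 * (oddPr D).card + 12)
  refine ⟨∏ i, q i, ?_, ?_, ?_⟩
  · refine Finset.squarefree_prod_of_pairwise_isCoprime ?_ (fun i _ => (hq.prime i).squarefree)
    intro i _ j _ hij
    simp only [Function.onFun, ← Nat.coprime_iff_isRelPrime]
    exact (Nat.coprime_primes (hq.prime i) (hq.prime j)).mpr (fun h => hij (hq.inj h))
  · intro l hl hlm
    obtain ⟨i, -, hi⟩ := (Prime.dvd_finset_prod_iff (Nat.prime_iff.1 hl) _).1 hlm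
    have h1 : l = q i := (Nat.prime_dvd_prime_iff_eq hl (hq.prime i)).1 hi
    subst h1
    obtain ⟨h2, h3⟩ := hq' i
    refine ⟨by omega, ?_, h3⟩
    intro h4
    have h5 := Nat.le_of_dvd (by omega) (Int.natCast_dvd.1 h4)
    omega
  · exact exists_tower (F := F) hT hq (by omega) (by nlinarith)

end Pool.Agent.K1H82.Sha
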