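import Mathlib
import Pool.Agent.TH841.NF.Conc
import Pool.Agent.TH841.NF.ShaN
import Pool.Agent.TH115.TC.Compl
import Pool.Agent.K1H82.Sha.Defs

/-! Restriction on the Tate-Shafarevich groups of a curve with integral coefficients, for an extension
of number fields. -/

set_option autoImplicit false
set_option linter.all false

open WeierstrassCurve NumberField IsDedekindDomain

namespace Pool.Agent.K1H82.Sha.R

open Pool.Agent.TH841.NF
open Pool.Agent.TH841.SH.D (Pt act Gal Coch IsCoc IsCob LocTriv cob)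

/-- `W` over the ring `R` -/
abbrev bs (W : WeierstrassCurve ℤ) (R : Type) [CommRing R] : WeierstrassCurve R :=
  W.map (Int.castRingHom R)

lemma sc (W : WeierstrassCurve ℤ) {F K L L' : Type} [Field F] [Field K] [Field L] [Field L']
    [Algebra F L] [Algebra K L'] (φ : L →+* L') :
    Sc φ 1 ((bs W F).baseChange L) ((bs W K).baseChange L') := by
  refine ⟨one_ne_zero, ?_, ?_, ?_, ?_, ?_⟩
  · change algebraMap K L' (Int.castRingHom K W.a₁) = φ (algebraMap F L (Int.castRingHom F W.a₁)) * 1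
    simp
  · change algebraMap K L' (Int.castRingHom K W.a₂) = φ (algebraMap F L (Int.castRingHom F W.a₂)) * 1 ^ 2
    simp
  · change algebraMap K L' (Int.castRingHom K W.a₃) = φ (algebraMap F L (Int.castRingHom F W.a₃)) * 1 ^ 3
    simp
  · change algebraMap K L' (Int.castRingHom K W.a₄) = φ (algebraMap F L (Int.castRingHom F W.a₄)) * 1 ^ 4
    simp
  · change algebraMap K L' (Int.castRingHom K W.a₆) = φ (algebraMap F L (Int.castRingHom F W.a₆)) * 1 ^ 6
    simp

lemma aut_of_two {k C : Type} [Field k] [Field C] (β₁ β₂ : AlgebraicClosure k →+* C)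
    (h : ∀ x : k, β₁ (algebraMap k _ x) = β₂ (algebraMap k _ x)) :
    ∃ τ : Gal k, ∀ x, β₂ x = β₁ (τ x) := by
  let i1 : Algebra (AlgebraicClosure k) C := β₁.toAlgebra
  let i2 : Algebra k C := (β₁.comp (algebraMap k (AlgebraicClosure k))).toAlgebra
  have i3 : IsScalarTower k (AlgebraicClosure k) C := IsScalarTower.of_algebraMap_eq fun _ => rfl
  let β : AlgebraicClosure k →ₐ[k] C :=
    { β₂ with commutes' := fun x => (h x).symm }
  refine ⟨Normal.algHomEquivAut k C (AlgebraicClosure k) β, fun x => ?_⟩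
  have h1 := (Normal.algHomEquivAut k C (AlgebraicClosure k)).symm_apply_apply β
  have h2 := DFunLike.congr_fun h1 x
  exact h2.symm

section res

variable {F K : Type} [Field F] [Field K] [Algebra F K] (W : WeierstrassCurve ℤ)
  (e : AlgebraicClosure K ≃+* AlgebraicClosure F)
  (he : ∀ x : F, e (algebraMap K (AlgebraicClosure K) (algebraMap F K x)) =
    algebraMap F (AlgebraicClosure F) x)

include he in
lemma he' (x : F) : e.symm (algebraMap F (AlgebraicClosure F) x) =
    algebraMap K (AlgebraicClosure K) (algebraMap F K x) := by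
  rw [← he, RingEquiv.symm_apply_apply]

/-- the map on the Galois groups -/
noncomputable def cR (σ : Gal K) : Gal F :=
  AlgEquiv.ofRingEquiv (f := (e.symm.trans (σ : AlgebraicClosure K ≃+* AlgebraicClosure K)).trans e)
    (fun x => by
      change e (σ (e.symm (algebraMap F (AlgebraicClosure F) x))) = _
      rw [he' e he, AlgEquiv.commutes, he])

lemma cR_apply (σ : Gal K) (x : AlgebraicClosure F) : cR e he σ x = e (σ (e.symm x)) := rfl

/-- the restriction of a cochain -/
noncomputable def rs (f : Coch (bs W F)) : Coch (bs W K) := fun σ =>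
  tm (sc W (e.symm : AlgebraicClosure F →+* AlgebraicClosure K)) (f (cR e he σ))

lemma rs_add (f f' : Coch (bs W F)) : rs W e he (f + f') = rs W e he f + rs W e he f' := by
  funext σ
  exact map_add _ _ _

lemma rs_act (σ : Gal K) (P : Pt (bs W F) (AlgebraicClosure F)) :
    tm (sc W (e.symm : AlgebraicClosure F →+* AlgebraicClosure K))
      (act (bs W F) (cR e he σ).toAlgHom P) =
      act (bs W K) σ.toAlgHom
        (tm (sc W (e.symm : AlgebraicClosure F →+* AlgebraicClosure K)) P) := by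
  have S : Sc ((e.symm : AlgebraicClosure F →+* AlgebraicClosure K).comp
      ((cR e he σ : AlgebraicClosure F ≃+* AlgebraicClosure F) :
        AlgebraicClosure F →+* AlgebraicClosure F)) 1 ((bs W F).baseChange (AlgebraicClosure F))
      ((bs W K).baseChange (AlgebraicClosure K)) := sc W _
  rw [act_tm (cR e he σ).toAlgHom
    (sc W (e.symm : AlgebraicClosure F →+* AlgebraicClosure K)) S
    (fun x => rfl), tm_act _ σ.toAlgHom S (fun x => ?_) (map_one _).symm]
  change σ (e.symm x) = e.symm (e (σ (e.symm x)))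
  rw [RingEquiv.symm_apply_apply]

lemma rs_cob {f : Coch (bs W F)} (hf : IsCob (bs W F) f) : IsCob (bs W K) (rs W e he f) := by
  obtain ⟨P, hP⟩ := hf
  refine ⟨tm (sc W (e.symm : AlgebraicClosure F →+* AlgebraicClosure K)) P, fun σ => ?_⟩
  unfold rs
  rw [hP, map_sub, rs_act W]

lemma rs_coc {f : Coch (bs W F)} (hf : IsCoc (bs W F) f) : IsCoc (bs W K) (rs W e he f) := by
  classical
  obtain ⟨S, hS⟩ := coc_fin hf
  refine coc_of_fin ?_ (S.image e.symm) ?_
  · intro σ τ
    have h1 : cR e he (σ * τ) = cR e he σ * cR e he τ := by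
      refine AlgEquiv.ext fun x => ?_
      change e ((σ * τ) (e.symm x)) = e (σ (e.symm (e (τ (e.symm x)))))
      rw [RingEquiv.symm_apply_apply]
      rfl
    unfold rs
    rw [h1, hf.2, map_add, rs_act W]
  · intro σ hσ
    unfold rs
    rw [hS, map_zero]
    intro x hx
    change e (σ (e.symm x)) = x
    rw [hσ _ (Finset.mem_image_of_mem _ hx), RingEquiv.apply_symm_apply]

lemma rs_loc {Fv : Type} [Field Fv] [Algebra F Fv] {Kw : Type} [Field Kw] [Algebra K Kw]
    (θ : Fv →+* Kw) (hθ : ∀ x : F, θ (algebraMap F Fv x) = algebraMap K Kw (algebraMap F K x))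
    {f : Coch (bs W F)} (hf : LocTriv (bs W F) Fv f) :
    LocTriv (bs W K) Kw (rs W e he f) := by
  intro ι
  let i1 : Algebra Fv (AlgebraicClosure Kw) :=
    ((algebraMap Kw (AlgebraicClosure Kw)).comp θ).toAlgebra
  let θ' : AlgebraicClosure Fv →ₐ[Fv] AlgebraicClosure Kw := IsAlgClosed.lift
  have hθ' : ∀ y : Fv, θ' (algebraMap Fv _ y) = algebraMap Kw _ (θ y) := fun y => θ'.commutes y
  let ι₀ : AlgebraicClosure F →ₐ[F] AlgebraicClosure Fv := IsAlgClosed.lift
  obtain ⟨h₀, hh₀⟩ := aut_of_two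
    ((θ' : AlgebraicClosure Fv →+* AlgebraicClosure Kw).comp
      (ι₀ : AlgebraicClosure F →+* AlgebraicClosure Fv))
    ((ι : AlgebraicClosure K →+* AlgebraicClosure Kw).comp
      (e.symm : AlgebraicClosure F →+* AlgebraicClosure K)) (fun x => by
        change θ' (ι₀ (algebraMap F _ x)) = ι (e.symm (algebraMap F _ x))
        rw [he' e he, AlgHom.commutes, AlgHom.commutes,
          IsScalarTower.algebraMap_apply F Fv (AlgebraicClosure Fv), hθ', hθ,
          ← IsScalarTower.algebraMap_apply K Kw (AlgebraicClosure Kw)])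
  let ι₁ : AlgebraicClosure F →ₐ[F] AlgebraicClosure Fv := ι₀.comp h₀.toAlgHom
  have hι : ∀ x, ι (e.symm x) = θ' (ι₁ x) := hh₀
  obtain ⟨P₀, hP₀⟩ := hf ι₁
  have S1 : Sc (θ' : AlgebraicClosure Fv →+* AlgebraicClosure Kw) 1
    ((bs W F).baseChange (AlgebraicClosure Fv)) ((bs W K).baseChange (AlgebraicClosure Kw)) :=
    sc W _
  refine ⟨tm S1 P₀, fun τ σ hτ => ?_⟩
  obtain ⟨τ₀, hτ₀⟩ := aut_of_two (θ' : AlgebraicClosure Fv →+* AlgebraicClosure Kw)
    (((τ : AlgebraicClosure Kw ≃+* AlgebraicClosure Kw) : AlgebraicClosure Kw →+*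
      AlgebraicClosure Kw).comp (θ' : AlgebraicClosure Fv →+* AlgebraicClosure Kw)) (by
      intro y
      change θ' (algebraMap Fv _ y) = τ (θ' (algebraMap Fv _ y))
      rw [hθ', AlgEquiv.commutes])
  have hτ2 : ∀ x, τ (θ' x) = θ' (τ₀ x) := hτ₀
  have hcomp : ∀ x, τ₀ (ι₁ x) = ι₁ (cR e he σ x) := by
    intro x
    apply (θ' : AlgebraicClosure Fv →+* AlgebraicClosure Kw).injective
    change θ' (τ₀ (ι₁ x)) = θ' (ι₁ (cR e he σ x))
    rw [← hτ2, ← hι, hτ, ← hι]
    change _ = ι (e.symm (e (σ (e.symm x))))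
    rw [RingEquiv.symm_apply_apply]
  have h1 := hP₀ τ₀ (cR e he σ) hcomp
  have S2 : Sc ((ι : AlgebraicClosure K →+* AlgebraicClosure Kw).comp
      (e.symm : AlgebraicClosure F →+* AlgebraicClosure K)) 1
    ((bs W F).baseChange (AlgebraicClosure F)) ((bs W K).baseChange (AlgebraicClosure Kw)) :=
    sc W _
  have h2 : act (bs W K) ι (rs W e he f σ) = tm S2 (f (cR e he σ)) :=
    tm_act _ ι S2 (fun x => rfl) (map_one ι).symm _
  have h3 : tm S2 (f (cR e he σ)) = tm S1 (act (bs W F) ι₁ (f (cR e he σ))) :=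
    (act_tm ι₁ S1 S2 (fun x => (hι x).symm) _).symm
  rw [h2, h3, h1, map_sub]
  congr 1
  have S3 : Sc (((τ : AlgebraicClosure Kw ≃+* AlgebraicClosure Kw) : AlgebraicClosure Kw →+*
      AlgebraicClosure Kw).comp (θ' : AlgebraicClosure Fv →+* AlgebraicClosure Kw)) 1
      ((bs W F).baseChange (AlgebraicClosure Fv)) ((bs W K).baseChange (AlgebraicClosure Kw)) :=
    sc W _
  have h4 : tm S1 (act (bs W F) (τ₀.toAlgHom.restrictScalars F) P₀) = tm S3 P₀ :=
    act_tm _ S1 S3 (fun x => (hτ2 x).symm) _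
  have h5 : act (bs W K) (τ.toAlgHom.restrictScalars K) (tm S1 P₀) = tm S3 P₀ :=
    tm_act _ (τ.toAlgHom.restrictScalars K) S3 (fun x => rfl) (map_one _).symm _
  rw [h4, h5]

end res

section nf

variable {F K : Type} [Field F] [NumberField F] [Field K] [NumberField K] [Algebra F K]
  (W : WeierstrassCurve ℤ)
  (e : AlgebraicClosure K ≃+* AlgebraicClosure F)
  (he : ∀ x : F, e (algebraMap K (AlgebraicClosure K) (algebraMap F K x)) =
    algebraMap F (AlgebraicClosure F) x)

lemma exists_fin_map (w : HeightOneSpectrum (𝓞 K)) : ∃ (v : HeightOneSpectrum (𝓞 F))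
    (θ : v.adicCompletion F →+* w.adicCompletion K),
    ∀ x : F, θ (algebraMap F _ x) = algebraMap K _ (algebraMap F K x) := by
  obtain ⟨v, hv⟩ := Pool.Agent.TeamU.exists_under F K w
  have hlo := Pool.Agent.TeamU.liesOver_of_over hv
  have he0 : v.asIdeal.ramificationIdx' w.asIdeal ≠ 0 :=
    Ideal.IsDedekindDomain.ramificationIdx'_ne_zero_of_liesOver _ v.ne_bot
  obtain ⟨j, hj, -, -⟩ := Pool.Agent.TH115.GD.exists_compl_map v w (algebraMap F K)
    (fun x hx => by
      rw [Pool.Agent.TeamU.val_over hv]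
      exact pow_le_one' hx _)
    (fun x hx => by
      rw [Pool.Agent.TeamU.val_over hv]
      exact pow_lt_one' hx he0)
  exact ⟨v, j, hj⟩

lemma exists_inf_map (w : InfinitePlace K) : ∃ (v : InfinitePlace F)
    (θ : v.Completion →+* w.Completion),
    ∀ x : F, θ (algebraMap F _ x) = algebraMap K _ (algebraMap F K x) := by
  let v : InfinitePlace F := w.comap (algebraMap F K)
  have : w.LiesOver v := ⟨rfl⟩
  refine ⟨v, NumberField.LiesOver.completionMap, fun x => ?_⟩
  have h1 := NumberField.LiesOver.completionMap_coe (v := v) (w := w) (WithAbs.toAbs v.1 x)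
  exact h1

lemma rs_sha {f : Coch (bs W F)} (hf : Pool.Agent.TH841.NF.D.IsShaCoc (bs W F) f) :
    Pool.Agent.TH841.NF.D.IsShaCoc (bs W K) (rs W e he f) := by
  refine ⟨rs_coc W e he hf.1, fun w => ?_, fun w => ?_⟩
  · obtain ⟨v, θ, hθ⟩ := exists_fin_map (F := F) w
    exact rs_loc W e he θ hθ (hf.2.1 v)
  · obtain ⟨v, θ, hθ⟩ := exists_inf_map (F := F) w
    exact rs_loc W e he θ hθ (hf.2.2 v)

end nf

end Pool.Agent.K1H82.Sha.R
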