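import Mathlib
import Pool.Agent.K1H82.Sha.Rst

/-! Injectivity of the restriction on the 2-primary part when the points over the larger field are of
odd order. -/

set_option autoImplicit false
set_option linter.all false

open WeierstrassCurve NumberField IsDedekindDomain

namespace Pool.Agent.K1H82.Sha.R

open Pool.Agent.TH841.NF
open Pool.Agent.TH841.SH.D (Pt act Gal Coch IsCoc IsCob LocTriv cob)

/-- the averaging argument -/
lemma avg {G Q A : Type*} [Group G] [Group Q] [Fintype Q] [AddCommGroup A] (a : G → A →+ A)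
    (r : G →* Q) (hr : Function.Surjective r) (f : G → A)
    (hf : ∀ σ τ, f (σ * τ) = f σ + a σ (f τ)) (hker : ∀ h, r h = 1 → f h = 0) :
    ∃ S : A, ∀ σ, Fintype.card Q • f σ = a σ S - S := by
  obtain ⟨s, hs⟩ := hr.hasRightInverse
  have hconst : ∀ σ τ, r σ = r τ → f σ = f τ := by
    intro σ τ h
    have h1 := hf τ (τ⁻¹ * σ)
    rw [mul_inv_cancel_left, hker (τ⁻¹ * σ) (by rw [map_mul, map_inv, h, inv_mul_cancel]), map_zero,
      add_zero] at h1
    exact h1
  refine ⟨-∑ q, f (s q), fun σ => ?_⟩
  have h2 : a σ (∑ q, f (s q)) = ∑ q, f (s q) - Fintype.card Q • f σ := by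
    rw [map_sum]
    have h3 : ∀ q, a σ (f (s q)) = f (s (r σ * q)) - f σ := by
      intro q
      rw [eq_sub_iff_add_eq', ← hf]
      apply hconst
      rw [map_mul, hs, hs]
    rw [Finset.sum_congr rfl fun q _ => h3 q, Finset.sum_sub_distrib, Finset.sum_const,
      Finset.card_univ]
    congr 1
    exact Equiv.sum_comp (Equiv.mulLeft (r σ)) (fun q => f (s q))
  rw [map_neg, h2]
  abel

lemma avg' {G Q A : Type*} [Group G] [Group Q] [Fintype Q] [AddCommGroup A] (a : G → A →+ A)
    (hmul : ∀ σ τ x, a (σ * τ) x = a σ (a τ x))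
    (r : G →* Q) (hr : Function.Surjective r) (f : G → A)
    (hf : ∀ σ τ, f (σ * τ) = f σ + a σ (f τ)) (hker : ∀ h, r h = 1 → f h = 0) (N : ℕ)
    (hN : ∀ x : A, (∀ h, r h = 1 → a h x = x) → N • x = 0) (hco : N.Coprime (Fintype.card Q)) :
    ∃ S : A, ∀ σ, f σ = a σ S - S := by
  obtain ⟨S, hS⟩ := avg a r hr f hf hker
  have hconst : ∀ σ τ, r σ = r τ → f σ = f τ := by
    intro σ τ h
    have h1 := hf τ (τ⁻¹ * σ)
    rw [mul_inv_cancel_left, hker (τ⁻¹ * σ) (by rw [map_mul, map_inv, h, inv_mul_cancel]), map_zero,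
      add_zero] at h1
    exact h1
  have hkill : ∀ σ, N • f σ = 0 := by
    intro σ
    apply hN
    intro h hh
    have h1 := hf h σ
    rw [hker h hh, zero_add] at h1
    rw [← h1]
    apply hconst
    rw [map_mul, hh, one_mul]
  obtain ⟨u, v, huv⟩ := Nat.isCoprime_iff_coprime.2 hco
  refine ⟨v • S, fun σ => ?_⟩
  have h1 := congrArg (fun z : ℤ => z • f σ) huv
  simp only [add_smul, one_smul, mul_smul, natCast_zsmul] at h1
  rw [hkill, smul_zero, zero_add, hS] at h1
  rw [← h1, smul_sub, map_zsmul]

section fixed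

variable {K : Type} [Field K] [CharZero K] (W : WeierstrassCurve K)

lemma mem_range_of_fixed (x : AlgebraicClosure K) (h : ∀ σ : Gal K, σ x = x) :
    ∃ y : K, algebraMap K _ y = x := by
  have hg : IsGalois K (AlgebraicClosure K) := inferInstance
  have h1 := (InfiniteGalois.mem_bot_iff_fixed x).2 h
  exact IntermediateField.mem_bot.1 h1

lemma exists_of_fixed (P : Pt W (AlgebraicClosure K))
    (h : ∀ σ : Gal K, act W σ.toAlgHom P = P) :
    ∃ Q : Pt W K, act W (Algebra.ofId K (AlgebraicClosure K)) Q = P := by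
  rcases P with _ | ⟨x, y, hxy⟩
  · exact ⟨0, map_zero _⟩
  · have h1 : ∀ σ : Gal K, σ x = x ∧ σ y = y := by
      intro σ
      have h2 := h σ
      rw [act_some'] at h2
      exact pt_inj _ _ h2
    obtain ⟨x', hx'⟩ := mem_range_of_fixed x (fun σ => (h1 σ).1)
    obtain ⟨y', hy'⟩ := mem_range_of_fixed y (fun σ => (h1 σ).2)
    subst hx' hy'
    have hns : (W.baseChange K).toAffine.Nonsingular x' y' :=
      (Affine.baseChange_nonsingular W (f := Algebra.ofId K (AlgebraicClosure K))
        (Algebra.ofId K (AlgebraicClosure K)).toRingHom.injective x' y').mp hxy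
    refine ⟨Affine.Point.some x' y' hns, ?_⟩
    rw [act_some']
    rfl

end fixed

section desc

variable {F K : Type} [Field F] [NumberField F] [Field K] [NumberField K] [Algebra F K]
  (W : WeierstrassCurve ℤ)
  (e : AlgebraicClosure K ≃+* AlgebraicClosure F)
  (he : ∀ x : F, e (algebraMap K (AlgebraicClosure K) (algebraMap F K x)) =
    algebraMap F (AlgebraicClosure F) x)

/-- the homomorphism on the cocycles -/
noncomputable def rsC : Pool.Agent.TH841.NF.D.shaCoc (bs W F) →+
    Pool.Agent.TH841.NF.D.shaCoc (bs W K) where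
  toFun f := ⟨rs W e he f.1, rs_sha W e he f.2⟩
  map_zero' := by
    apply Subtype.ext
    have h := rs_add W e he 0 0
    rw [add_zero] at h
    exact left_eq_add.1 h
  map_add' f g := Subtype.ext (rs_add W e he f.1 g.1)

/-- the restriction on the Tate-Shafarevich groups -/
noncomputable def rsS : Pool.Agent.TH841.NF.D.Sha (bs W F) →+ Pool.Agent.TH841.NF.D.Sha (bs W K) :=
  QuotientAddGroup.map ((cob (bs W F)).addSubgroupOf (Pool.Agent.TH841.NF.D.shaCoc (bs W F)))
    ((cob (bs W K)).addSubgroupOf (Pool.Agent.TH841.NF.D.shaCoc (bs W K)))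
    (rsC W e he) (fun _ hf => rs_cob W e he hf)

lemma act_mul' {k : Type} [Field k] (V : WeierstrassCurve k) (σ τ : Gal k)
    (P : Pt V (AlgebraicClosure k)) :
    act V (σ * τ).toAlgHom P = act V σ.toAlgHom (act V τ.toAlgHom P) := by
  rcases P with _ | ⟨x, y, h⟩
  · rfl
  · rw [act_some', act_some', act_some']
    rfl

include he in
/-- a cocycle whose restriction is a coboundary -/
theorem cob_of_rs [IsGalois F K] (hfin : Finite (bs W K).toAffine.Point)
    (hco : (Nat.card (bs W K).toAffine.Point).Coprime (Module.finrank F K))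
    (f : Coch (bs W F)) (hf : IsCoc (bs W F) f) (hr : IsCob (bs W K) (rs W e he f)) :
    IsCob (bs W F) f := by
  classical
  obtain ⟨P, hP⟩ := hr
  have hff : FiniteDimensional F K := Module.Finite.of_restrictScalars_finite ℚ F K
  let _ : Algebra K (AlgebraicClosure F) :=
    ((e : AlgebraicClosure K →+* AlgebraicClosure F).comp
      (algebraMap K (AlgebraicClosure K))).toAlgebra
  have halg : ∀ x : K, algebraMap K (AlgebraicClosure F) x = e (algebraMap K _ x) := fun _ => rfl
  have : IsScalarTower F K (AlgebraicClosure F) := IsScalarTower.of_algebraMap_eq fun x => by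
    rw [halg, he]
  let r : Gal F →* (K ≃ₐ[F] K) := AlgEquiv.restrictNormalHom K
  have hrs : Function.Surjective r := AlgEquiv.restrictNormalHom_surjective (AlgebraicClosure F)
  have hr1 : ∀ h : Gal F, r h = 1 ↔ ∀ x : K, h (e (algebraMap K _ x)) = e (algebraMap K _ x) := by
    intro h
    constructor
    · intro hh x
      have h1 := AlgEquiv.restrictNormal_commutes h K x
      have h2 : h.restrictNormal K = 1 := hh
      rw [h2] at h1
      exact h1.symm
    · intro hh
      apply AlgEquiv.ext
      intro x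
      have h1 := AlgEquiv.restrictNormal_commutes h K x
      rw [halg, halg, hh] at h1
      exact (algebraMap K (AlgebraicClosure K)).injective (e.injective h1)
  -- the inverse of `cR`
  have hinv : ∀ h : Gal F, r h = 1 → ∃ σ : Gal K, cR e he σ = h := by
    intro h hh
    rw [hr1] at hh
    refine ⟨AlgEquiv.ofRingEquiv
      (f := (e.trans (h : AlgebraicClosure F ≃+* AlgebraicClosure F)).trans e.symm) (fun x => ?_), ?_⟩
    · change e.symm (h (e (algebraMap K _ x))) = _
      rw [hh, RingEquiv.symm_apply_apply]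
    · apply AlgEquiv.ext
      intro x
      change e (e.symm (h (e (e.symm x)))) = h x
      rw [RingEquiv.apply_symm_apply, RingEquiv.apply_symm_apply]
  have S1 : Sc (e : AlgebraicClosure K →+* AlgebraicClosure F) 1
    ((bs W K).baseChange (AlgebraicClosure K)) ((bs W F).baseChange (AlgebraicClosure F)) := sc W _
  have S2 : Sc (e.symm : AlgebraicClosure F →+* AlgebraicClosure K) 1
    ((bs W F).baseChange (AlgebraicClosure F)) ((bs W K).baseChange (AlgebraicClosure K)) := sc W _
  have S3 : Sc (RingHom.id (AlgebraicClosure K)) 1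
    ((bs W K).baseChange (AlgebraicClosure K)) ((bs W K).baseChange (AlgebraicClosure K)) := sc W _
  have hPP : tm S2 (tm S1 P) = P := by
    rw [tm_tm S1 S2 S3 (fun x => e.symm_apply_apply x) (by simp), tm_id S3 (fun x => rfl) rfl]
  let f' : Coch (bs W F) := fun σ => f σ - (act (bs W F) σ.toAlgHom (tm S1 P) - tm S1 P)
  have hf' : ∀ σ τ : Gal F, f' (σ * τ) = f' σ + act (bs W F) σ.toAlgHom (f' τ) := by
    intro σ τ
    change f (σ * τ) - (act (bs W F) (σ * τ).toAlgHom (tm S1 P) - tm S1 P) =
      (f σ - (act (bs W F) σ.toAlgHom (tm S1 P) - tm S1 P)) +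
        act (bs W F) σ.toAlgHom (f τ - (act (bs W F) τ.toAlgHom (tm S1 P) - tm S1 P))
    rw [hf.2, act_mul', map_sub, map_sub]
    abel
  have hker : ∀ h, r h = 1 → f' h = 0 := by
    intro h hh
    obtain ⟨σ, rfl⟩ := hinv h hh
    apply tm_inj S2
    change tm S2 (f (cR e he σ) - (act (bs W F) (cR e he σ).toAlgHom (tm S1 P) - tm S1 P)) = tm S2 0
    rw [map_zero, map_sub, map_sub, rs_act, hPP]
    have h1 : tm S2 (f (cR e he σ)) = rs W e he f σ := rfl
    rw [h1, hP, sub_self]
  obtain ⟨S, hS⟩ := avg' (fun σ : Gal F => act (bs W F) σ.toAlgHom) (act_mul' (bs W F)) r hrs f' hf'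
    hker (Nat.card (bs W K).toAffine.Point) (by
      intro x hx
      apply tm_inj S2
      rw [map_zero]
      change tm S2 (_ • x) = 0
      rw [map_nsmul]
      obtain ⟨Q, hQ⟩ := exists_of_fixed (bs W K) (tm S2 x) (fun σ => by
        rw [← rs_act W e he, hx]
        rw [hr1]
        intro y
        change e (σ (e.symm (e (algebraMap K _ y)))) = _
        rw [RingEquiv.symm_apply_apply, AlgEquiv.commutes])
      rw [← hQ, ← map_nsmul]
      have hcard : Nat.card (Pt (bs W K) K) = Nat.card (bs W K).toAffine.Point := by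
        have h1 : (bs W K).baseChange K = bs W K := WeierstrassCurve.map_id _
        change Nat.card ((bs W K).baseChange K).toAffine.Point = _
        rw [h1]
      have h2 : Nat.card (Pt (bs W K) K) • Q = 0 := card_nsmul_eq_zero' 
      rw [← hcard, h2, map_zero]) (by
      rw [← Nat.card_eq_fintype_card, IsGalois.card_aut_eq_finrank]
      exact hco)
  refine ⟨S + tm S1 P, fun σ => ?_⟩
  have h1 : f σ = f' σ + (act (bs W F) σ.toAlgHom (tm S1 P) - tm S1 P) := by
    change f σ = (f σ - _) + _
    abel
  rw [h1, hS, map_add]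
  abel

end desc

/-- the identification of the algebraic closures -/
lemma exists_e (F K : Type) [Field F] [NumberField F] [Field K] [NumberField K] [Algebra F K] :
    ∃ e : AlgebraicClosure K ≃+* AlgebraicClosure F,
      ∀ x : F, e (algebraMap K (AlgebraicClosure K) (algebraMap F K x)) =
        algebraMap F (AlgebraicClosure F) x := by
  have hff : FiniteDimensional F K := Module.Finite.of_restrictScalars_finite ℚ F K
  have h1 : Algebra.IsAlgebraic F (AlgebraicClosure K) := Algebra.IsAlgebraic.trans F K _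
  have h2 : IsAlgClosure F (AlgebraicClosure K) := ⟨inferInstance, h1⟩
  refine ⟨(IsAlgClosure.equiv F (AlgebraicClosure K) (AlgebraicClosure F)).toRingEquiv, fun x => ?_⟩
  rw [← IsScalarTower.algebraMap_apply F K (AlgebraicClosure K)]
  exact AlgEquiv.commutes _ x

/-- **Descent of the triviality of the 2-primary part.** -/
theorem sha_desc (W : WeierstrassCurve ℤ) (F K : Type) [Field F] [NumberField F] [Field K]
    [NumberField K] [Algebra F K] [IsGalois F K] (hfin : Finite (bs W K).toAffine.Point)
    (hco : (Nat.card (bs W K).toAffine.Point).Coprime (Module.finrank F K)) (m : ℕ)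
    (hsha : ∀ s : Pool.Agent.TH841.NF.D.Sha (bs W K), m • s = 0 → s = 0)
    (s : Pool.Agent.TH841.NF.D.Sha (bs W F)) (hs : m • s = 0) : s = 0 := by
  obtain ⟨e, he⟩ := exists_e F K
  have h1 : rsS W e he s = 0 := hsha _ (by rw [← map_nsmul, hs, map_zero])
  induction s using QuotientAddGroup.induction_on with
  | H f =>
    have h2 : rsC W e he f ∈ (cob (bs W K)).addSubgroupOf
        (Pool.Agent.TH841.NF.D.shaCoc (bs W K)) :=
      (QuotientAddGroup.eq_zero_iff _).1 h1
    have h3 : IsCob (bs W K) (rs W e he f.1) := h2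
    have h4 : IsCob (bs W F) f.1 := cob_of_rs W e he hfin hco f.1 f.2.1 h3
    exact (QuotientAddGroup.eq_zero_iff (N := (cob (bs W F)).addSubgroupOf
      (Pool.Agent.TH841.NF.D.shaCoc (bs W F))) _).2 h4

end Pool.Agent.K1H82.Sha.R
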