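import Mathlib
import Pool.Agent.K1H82.Sha.Choice
import Pool.Agent.K1H82.Sha.Rst2

/-! The descent of the conclusion from the fields of the tower normal over `ℚ` to all number fields. -/

set_option autoImplicit false
set_option linter.all false

open NumberField IsDedekindDomain Module IntermediateField

namespace Pool.Agent.K1H82.Sha

open Pool.Agent.TeamU hiding X
open Pool.Agent.W401.Cheb (xp)
open R (bs sha_desc)

theorem exists_prime_mem {K : Type} [Field K] [NumberField K] (v : HeightOneSpectrum (𝓞 K)) (n : ℕ)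
    (hn : n ≠ 0) (h : (n : 𝓞 K) ∈ v.asIdeal) : ∃ p : ℕ, p.Prime ∧ p ∣ n ∧ (p : 𝓞 K) ∈ v.asIdeal := by
  induction n using induction_on_primes with
  | zero => exact absurd rfl hn
  | one =>
    exfalso
    apply v.isPrime.ne_top
    rw [Ideal.eq_top_iff_one]
    simpa using h
  | prime_mul p a hp ih =>
    rw [Nat.cast_mul] at h
    rcases v.isPrime.mem_or_mem h with h | h
    · exact ⟨p, hp, dvd_mul_right _ _, h⟩
    · obtain ⟨l, h1, h2, h3⟩ := ih (by rintro rfl; exact hn (mul_zero _)) h
      exact ⟨l, h1, h2.mul_left _, h3⟩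

theorem exists_prime_mem_int {K : Type} [Field K] [NumberField K] (v : HeightOneSpectrum (𝓞 K))
    (D : ℤ) (hD : D ≠ 0) (h : (D : 𝓞 K) ∈ v.asIdeal) :
    ∃ p : ℕ, p.Prime ∧ (p : ℤ) ∣ D ∧ (p : 𝓞 K) ∈ v.asIdeal := by
  obtain ⟨p, h1, h2, h3⟩ := exists_prime_mem v D.natAbs (by simpa using hD) (by
    rcases Int.natAbs_eq D with h4 | h4
    · rw [h4] at h
      simpa using h
    · rw [h4] at h
      simpa using h)
  exact ⟨p, h1, Int.natCast_dvd.2 h2, h3⟩

/-- the residue degree one condition -/
theorem Nice.prime {D : ℤ} (hD : D ≠ 0) {m : ℕ} {K : Type} [Field K] [NumberField K]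
    (h : Nice (oddPr D) m K) (v : HeightOneSpectrum (𝓞 K)) (hv : ((2 * D : ℤ) : 𝓞 K) ∈ v.asIdeal) :
    (Ideal.absNorm v.asIdeal).Prime := by
  obtain ⟨p, hp, h1, h2⟩ := exists_prime_mem_int v (2 * D) (by simpa using hD) hv
  rw [h.split v p (mem_oddPr hD hp h1) h2]
  exact hp

/-- the conclusion for a number field -/
def Concl (W : WeierstrassCurve ℤ) (E : Type) [Field E] [NumberField E] : Prop :=
  Finite (bs W E).toAffine.Point ∧ Odd (Nat.card (bs W E).toAffine.Point) ∧
    ∀ (n : ℕ) (s : Pool.Agent.TH841.NF.D.Sha (bs W E)), 2 ^ n • s = 0 → s = 0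

theorem pow_of_two {A : Type*} [AddCommGroup A] (h : ∀ s : A, 2 • s = 0 → s = 0) (n : ℕ) (s : A)
    (hs : 2 ^ n • s = 0) : s = 0 := by
  induction n with
  | zero => simpa using hs
  | succ n ih =>
    apply ih
    apply h
    rw [← mul_nsmul', ← pow_succ']
    exact hs

theorem odd_of_no_two {A : Type*} [AddCommGroup A] [Finite A] (h : ∀ s : A, s + s = 0 → s = 0) :
    Odd (Nat.card A) := by
  rw [← Nat.not_even_iff_odd, even_iff_two_dvd]
  intro h2
  have : Fact (Nat.Prime 2) := ⟨Nat.prime_two⟩
  obtain ⟨x, hx⟩ := exists_prime_addOrderOf_dvd_card' 2 h2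
  have h3 : x = 0 := by
    apply h
    rw [← two_nsmul, ← hx]
    exact addOrderOf_nsmul_eq_zero x
  rw [h3, addOrderOf_zero] at hx
  norm_num at hx

open Classical in
/-- descent to a subfield -/
theorem Concl.desc {W : WeierstrassCurve ℤ} {F K : Type} [Field F] [NumberField F] [Field K]
    [NumberField K] [Algebra F K] [IsGalois F K] {a : ℕ} (ha : finrank F K = 2 ^ a)
    (h : Concl W K) : Concl W F := by
  obtain ⟨h1, h2, h3⟩ := h
  have hmap : (bs W F).baseChange K = bs W K := by
    change (W.map (Int.castRingHom F)).map (algebraMap F K) = _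
    rw [WeierstrassCurve.map_map]
    congr 1
    exact RingHom.ext_int _ _
  have hF : (bs W F).baseChange F = bs W F := WeierstrassCurve.map_id _
  let φ : ((bs W F).baseChange F).toAffine.Point →+ ((bs W F).baseChange K).toAffine.Point :=
    WeierstrassCurve.Affine.Point.map (W' := bs W F) (Algebra.ofId F K)
  have hφ : Function.Injective φ :=
    WeierstrassCurve.Affine.Point.map_injective (W' := bs W F) (Algebra.ofId F K)
  have h1' : Finite ((bs W F).baseChange K).toAffine.Point := by rw [hmap]; exact h1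
  have h2' : Odd (Nat.card ((bs W F).baseChange K).toAffine.Point) := by rw [hmap]; exact h2
  have h4 : Finite ((bs W F).baseChange F).toAffine.Point := Finite.of_injective φ hφ
  have h5 : Nat.card ((bs W F).baseChange F).toAffine.Point ∣
      Nat.card ((bs W F).baseChange K).toAffine.Point :=
    AddSubgroup.card_dvd_of_injective φ hφ
  have h6 : Odd (Nat.card ((bs W F).baseChange F).toAffine.Point) := h2'.of_dvd_nat h5
  rw [hF] at h4 h6
  refine ⟨h4, h6, fun n s hs => ?_⟩
  refine sha_desc W F K h1 ?_ (2 ^ n) (h3 n) s hs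
  rw [ha]
  exact Nat.Coprime.pow_right _ (Nat.coprime_two_right.2 h2)

end Pool.Agent.K1H82.Sha
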