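import Mathlib
import Pool.Agent.K1H82.Sha.Fin
import Pool.Agent.R425.T.Sel

/-! The Galois fields of 2-power degree. -/

set_option autoImplicit false
set_option linter.all false

open NumberField IsDedekindDomain Module IntermediateField

namespace Pool.Agent.K1H82.Sha

open Pool.Agent.TeamU hiding X
open Pool.Agent.Y702.G (base pts sh)
open R (bs)

/-- the conclusion for the fields of the tower normal over `ℚ` -/
theorem concl_normal (W : WeierstrassCurve ℤ) (hΔ : W.Δ ≠ 0)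
    (hsha : ∀ s : Pool.Agent.TH841.NF.D.Sha (bs W ℚ), 2 • s = 0 → s = 0)
    (hfin : Finite (bs W ℚ).toAffine.Point) (hcard : Odd (Nat.card (bs W ℚ).toAffine.Point))
    (m : ℕ) (hm : ∀ l : ℕ, l.Prime → l ∣ m → ¬ (l : ℤ) ∣ 2 * W.Δ ∧
      ∀ x : ℤ, ¬ (l : ℤ) ∣ x ^ 3 + W.b₂ * x ^ 2 + 8 * W.b₄ * x + 16 * W.b₆)
    (K : Type) [Field K] [NumberField K] [IsGalois ℚ K] (hK : Nice (oddPr W.Δ) m K) :
    Concl W K := by
  classical
  obtain ⟨a, ha⟩ := hK.pow
  obtain ⟨h1, h2⟩ := Pool.Agent.R425.T.sel_abs W hΔ hsha hfin hcard K a m ha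
    (fun l hl hlm => ⟨(hm l hl hlm).1, by
      by_contra hev
      obtain ⟨x, hx⟩ := Pool.Agent.R425.G.exists_root W hl (hm l hl hlm).1 hev
      exact (hm l hl hlm).2 x hx⟩)
    (fun p hp hpm v hv => Pool.Agent.R425.unr_of_disc K hp (fun h => hpm (hK.disc p hp h)) v hv)
    (fun v hv => hK.prime hΔ v hv)
    (fun _ w => hK.real.isReal w)
  have h2' : Finite (bs W K).toAffine.Point := h2
  have h3 : ∀ P : (bs W K).toAffine.Point, P + P = 0 → P = 0 := fun P hP =>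
    Pool.Agent.R425.G.two_tors W hΔ
    (Pool.Agent.Y702.G.no_root _ (Pool.Agent.Y702.G.no_root_of_odd W hΔ hfin hcard) K a ha) P hP
  exact ⟨h2, odd_of_no_two h3, fun n s hs => pow_of_two h1 n s hs⟩

theorem no_root' (W : WeierstrassCurve ℤ) (hΔ : W.Δ ≠ 0)
    (hfin : Finite (bs W ℚ).toAffine.Point) (hcard : Odd (Nat.card (bs W ℚ).toAffine.Point))
    (x : ℚ) : x ^ 3 + (W.b₂ : ℚ) * x ^ 2 + ((8 * W.b₄ : ℤ) : ℚ) * x +
      ((16 * W.b₆ : ℤ) : ℚ) ≠ 0 := by
  intro hx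
  apply Pool.Agent.Y702.G.no_root_of_odd W hΔ hfin hcard x
  unfold Pool.Agent.TH115.GD.cub Pool.Agent.Y702.G.sh
  simp only [Algebra.algebraMap_self, RingHom.id_apply]
  push_cast at hx
  linear_combination (exp := 1) hx

end Pool.Agent.K1H82.Sha
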