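import Mathlib
import Pool.Agent.K1H82.Sha.Fin

/-! The tower, for all the number fields contained in it. -/

set_option autoImplicit false
set_option linter.all false

open NumberField IsDedekindDomain Module IntermediateField

namespace Pool.Agent.K1H82.Sha

open Pool.Agent.TeamU hiding X
open Pool.Agent.W401.Cheb (xp)
open R (bs sha_desc)

theorem nice_desc {T : Finset ℕ} (hT : ∀ p ∈ T, p.Prime) {m : ℕ} (E L : Type) [Field E]
    [NumberField E] [Field L] [NumberField L] [Algebra E L] (h : Nice T m L) :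
    Nice T m E ∧ ∃ a, finrank E L = 2 ^ a := by
  have hf : FiniteDimensional E L := fin_of_nf E L
  obtain ⟨n, hn⟩ := h.pow
  have h1 : deg L = deg E * finrank E L := (Module.finrank_mul_finrank ℚ E L).symm
  refine ⟨⟨?_, ?_, ?_, ?_⟩, ?_⟩
  · have h2 : deg E ∣ 2 ^ n := by
      rw [← hn, h1]
      exact dvd_mul_right _ _
    obtain ⟨a, -, ha⟩ := (Nat.dvd_prime_pow Nat.prime_two).mp h2
    exact ⟨a, ha⟩
  · intro l hl hld
    apply h.disc l hl
    rw [Int.natCast_dvd] at hld ⊢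
    rw [natAbs_discr_eq_absNorm_differentIdeal_mul_natAbs_discr_pow E (𝓞 E) L (𝓞 L)]
    exact (hld.trans (dvd_pow_self _ (Module.finrank_pos).ne')).mul_left _
  · intro v p hp hv
    obtain ⟨P, hP⟩ := exists_over E L v
    have hpp : p.Prime := by
      rcases hp with rfl | hp
      · exact Nat.prime_two
      · exact hT p hp
    have hc := h.split P p hp ((natCast_mem_of_over hP p).mpr hv)
    rw [Ideal.absNorm_apply, Submodule.cardQuot_apply] at hc ⊢
    have : Finite (𝓞 L ⧸ P.asIdeal) := Nat.finite_of_card_ne_zero (by rw [hc]; exact hpp.ne_zero)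
    let f : 𝓞 E ⧸ v.asIdeal →+* 𝓞 L ⧸ P.asIdeal :=
      Ideal.quotientMap P.asIdeal (algebraMap (𝓞 E) (𝓞 L)) (le_of_eq hP.symm)
    have hinj : Function.Injective f := by
      apply Ideal.quotientMap_injective'
      exact le_of_eq hP
    have h1 : Nat.card (𝓞 E ⧸ v.asIdeal) ∣ Nat.card (𝓞 L ⧸ P.asIdeal) :=
      AddSubgroup.card_dvd_of_injective f.toAddMonoidHom hinj
    rw [hc, Nat.dvd_prime hpp] at h1
    rcases h1 with h1 | h1
    · exfalso
      have : Finite (𝓞 E ⧸ v.asIdeal) := Finite.of_injective f hinj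
      have : Nontrivial (𝓞 E ⧸ v.asIdeal) := Ideal.Quotient.nontrivial_iff.mpr v.isPrime.ne_top
      have h2 : 1 < Nat.card (𝓞 E ⧸ v.asIdeal) := Finite.one_lt_card
      omega
    · exact h1
  · exact totallyReal_desc E L h.real
  · have h2 : finrank E L ∣ 2 ^ n := by
      rw [← hn, h1]
      exact dvd_mul_left _ _
    obtain ⟨a, -, ha⟩ := (Nat.dvd_prime_pow Nat.prime_two).mp h2
    exact ⟨a, ha⟩

theorem isGalois_of_normal (E L : Type) [Field E] [NumberField E] [Field L] [NumberField L]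
    [Algebra E L] [i : Algebra ℚ L] (h : Normal ℚ L) : IsGalois E L ∧ IsGalois ℚ L := by
  obtain rfl : i = DivisionRing.toRatAlgebra := Subsingleton.elim _ _
  have h1 : Normal E L := Normal.tower_top_of_normal ℚ E L
  exact ⟨⟨⟩, ⟨⟩⟩

theorem fin_of_nf' {F : Type} [Field F] [Algebra ℚ F] {k : IntermediateField ℚ F}
    (h : NumberField k) : FiniteDimensional ℚ k := by
  have h1 := h.to_finiteDimensional
  have h2 : (DivisionRing.toRatAlgebra : Algebra ℚ k) = k.algebra' := Subsingleton.elim _ _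
  rw [h2] at h1
  exact h1

theorem nf_of_fd {L : Type} [Field L] [CharZero L] [i : Algebra ℚ L]
    (h : FiniteDimensional ℚ L) : NumberField L := by
  obtain rfl : i = DivisionRing.toRatAlgebra := Subsingleton.elim _ _
  exact ⟨⟩

theorem deg_mul (k E : Type) [Field k] [NumberField k] [Field E] [NumberField E] [Algebra k E] :
    deg E = deg k * finrank k E := (Module.finrank_mul_finrank ℚ k E).symm

/-- the identity -/
def extEquiv {F : Type} [Field F] [Algebra ℚ F] {k E : IntermediateField ℚ F} (h : k ≤ E) :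
    E ≃+* extendScalars h where
  toFun := fun x => ⟨x, x.2⟩
  invFun := fun x => ⟨x, x.2⟩
  left_inv := fun _ => rfl
  right_inv := fun _ => rfl
  map_mul' := fun _ _ => rfl
  map_add' := fun _ _ => rfl

theorem main_tower (F : Type) [Field F] [Algebra ℚ F] [IsAlgClosed F]
    [Algebra.IsAlgebraic ℚ F] (W : WeierstrassCurve ℤ) (hΔ : W.Δ ≠ 0)
    (hf : ∀ x : ℚ, x ^ 3 + (W.b₂ : ℚ) * x ^ 2 + ((8 * W.b₄ : ℤ) : ℚ) * x +
      ((16 * W.b₆ : ℤ) : ℚ) ≠ 0)
    (hcheb : ∀ (L : Type) [Field L] [NumberField L] [IsGalois ℚ L] (g : Gal(L/ℚ)),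
      {p : ℕ | p.Prime ∧ xp L g p ≠ 0}.Infinite)
    (hgal : ∀ m : ℕ, (∀ l : ℕ, l.Prime → l ∣ m → ¬ (l : ℤ) ∣ 2 * W.Δ ∧
      ∀ x : ℤ, ¬ (l : ℤ) ∣ x ^ 3 + W.b₂ * x ^ 2 + 8 * W.b₄ * x + 16 * W.b₆) →
      ∀ (K : Type) [Field K] [NumberField K] [IsGalois ℚ K], Nice (oddPr W.Δ) m K → Concl W K)
    (N : ℕ) :
    ∃ (k M : IntermediateField ℚ F) (_ : NumberField k), k ≤ M ∧ deg k = 2 ∧
      (∀ l : ℕ, l.Prime → (l : ℤ) ∣ discr k → N < l ∧ ¬ (l : ℤ) ∣ 2 * W.Δ) ∧
      Normal ℚ M ∧ ¬ FiniteDimensional ℚ M ∧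
      ∀ (E : IntermediateField ℚ F) (_ : NumberField E), E ≤ M →
        (∃ n, deg E = 2 ^ n) ∧ IsTotallyReal E ∧
        (∀ v : HeightOneSpectrum (𝓞 E), ((2 * W.Δ : ℤ) : 𝓞 E) ∈ v.asIdeal →
          (Ideal.absNorm v.asIdeal).Prime) ∧
        (k ≤ E → (discr E).natAbs ^ 2 = (discr k).natAbs ^ deg E) ∧ Concl W E := by
  obtain ⟨m, hsq, hm, k, ik, M, hk2, hs, hnk, hM1, hM2, hM⟩ :=
    exists_tower_cubic F hΔ W.b₂ (8 * W.b₄) (16 * W.b₆) hf hcheb N
  have hT : ∀ p ∈ oddPr W.Δ, p.Prime := fun p hp => (oddPr_odd W.Δ p hp).1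
  refine ⟨k, M.restrictScalars ℚ, ik, ?_, hk2, ?_, ?_, ?_, ?_⟩
  · intro x hx
    exact M.algebraMap_mem ⟨x, hx⟩
  · intro l hl hld
    have h1 := hm l hl (hnk.disc l hl hld)
    exact ⟨h1.1, h1.2.1⟩
  · exact normal_of_cover fun x => ⟨M, inferInstance, inferInstance, hM2, RingHom.id M, x, rfl⟩
  · intro hfin
    apply hM1
    have h1 : FiniteDimensional ℚ M := hfin
    exact Module.Finite.of_restrictScalars_finite ℚ k M
  · intro E iE hEM
    -- the compositum with `k`
    have hle : k ≤ k ⊔ E := le_sup_left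
    let L : IntermediateField k F := extendScalars hle
    have hfk : FiniteDimensional ℚ k := fin_of_nf' ik
    have hfE : FiniteDimensional ℚ E := fin_of_nf' iE
    have hfL : FiniteDimensional ℚ (k ⊔ E : IntermediateField ℚ F) := inferInstance
    have hnkE : NumberField (k ⊔ E : IntermediateField ℚ F) :=
      nf_of_fd (i := (k ⊔ E : IntermediateField ℚ F).algebra') hfL
    have hnL : NumberField L := NumberField.of_ringEquiv _ _ (extEquiv hle)
    have hLM : L ≤ M := by
      intro x hx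
      have h1 : k ⊔ E ≤ M.restrictScalars ℚ := sup_le (by
        intro x hx
        exact M.algebraMap_mem ⟨x, hx⟩) hEM
      exact h1 hx
    obtain ⟨-, -, -, L', hnL', hLL', hL'M, hN⟩ := hM L hnL hLM
    obtain ⟨hNL', -, -, -⟩ := hM L' hnL' hL'M
    let f : E →+* L' :=
      { toFun := fun x => ⟨x, hLL' ((le_sup_right : E ≤ k ⊔ E) x.2)⟩
        map_one' := rfl
        map_mul' := fun _ _ => rfl
        map_zero' := rfl
        map_add' := fun _ _ => rfl }
    let _ : Algebra E L' := f.toAlgebra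
    obtain ⟨hg, hgQ⟩ := isGalois_of_normal E L' hN
    obtain ⟨hNE, a, ha⟩ := nice_desc hT E L' hNL'
    have hC : Concl W L' := hgal m (fun l hl hlm => (hm l hl hlm).2) L' hNL'
    refine ⟨hNE.pow, hNE.real, fun v hv => hNE.prime hΔ v hv, fun hkE => ?_, hC.desc ha⟩
    let E' : IntermediateField k F := extendScalars hkE
    have hnE' : NumberField E' := NumberField.of_ringEquiv _ _ (extEquiv hkE)
    obtain ⟨-, hunr, -, -⟩ := hM E' hnE' (fun x hx => hEM hx)
    have h1 := discr_unr k E' hunr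
    let e : E ≃+* E' := extEquiv hkE
    have h2 : discr E = discr E' := NumberField.discr_eq_discr_of_ringEquiv E e
    have h3 : deg E = 2 * finrank k E' := by
      rw [deg_congr e, ← hk2]
      exact deg_mul k E'
    rw [h2, h1, h3, ← pow_mul, mul_comm]

end Pool.Agent.K1H82.Sha
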